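import Pool.Agent.MP_f411ce_al.LT.St

set_option autoImplicit false

namespace Pool.Agent.MP_f411ce_al.LT

/-- a free cocompact action on the vertices gives a geometric action on the edge graph -/
theorem hel_Act {G V : Type} [Group G] (B : BH V) (μ : G → V → V) (m1 : ∀ x, μ 1 x = x)
    (mm : ∀ g h x, μ (g * h) x = μ g (μ h x))
    (ha : ∀ g x y, B.adj x y → B.adj (μ g x) (μ g y)) (hd : ∀ g x y, B.d (μ g x) (μ g y) = B.d x y)
    (hfin : ∀ x, {y | B.adj x y}.Finite) (e0 : B.Dt) (fr : ∀ g x, μ g x = x → g = 1)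
    (F : Set V) (hF : F.Finite) (hc : ∀ x, ∃ g, ∃ w ∈ F, μ g w = x) : Helly G := by
  let tr : G → B.Dt → B.Dt := fun g e => ⟨(μ g e.1.1, μ g e.1.2), ha g _ _ e.2⟩
  have t1 : ∀ e, tr 1 e = e := fun e => Subtype.ext (Prod.ext (m1 _) (m1 _))
  have tm : ∀ g h e, tr (g * h) e = tr g (tr h e) := fun g h e =>
    Subtype.ext (Prod.ext (mm _ _ _) (mm _ _ _))
  have tl : ∀ g e, tr g⁻¹ (tr g e) = e := fun g e => by rw [← tm, inv_mul_cancel, t1]
  have tr' : ∀ g e, tr g (tr g⁻¹ e) = e := fun g e => by rw [← tm, mul_inv_cancel, t1]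
  let iso : G → (B.H ≃g B.H) := fun g =>
    { toFun := tr g, invFun := tr g⁻¹, left_inv := tl g, right_inv := tr' g
      map_rel_iff' := fun {e e'} => by
        show (tr g e ≠ tr g e' ∧ B.Near (tr g e) (tr g e') 1) ↔ (e ≠ e' ∧ B.Near e e' 1)
        rw [Ne, (Function.LeftInverse.injective (tl g)).eq_iff]
        simp only [BH.Near, tr, hd] }
  let ρ : G →* (B.H ≃g B.H) :=
    { toFun := iso
      map_one' := by ext e; exact t1 e
      map_mul' := fun g h => by ext e; exact tm g h e }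
  have hE : {e : B.Dt | e.1.1 ∈ F}.Finite := by
    refine ((hF.prod (hF.biUnion fun x _ => hfin x)).preimage (f := fun e : B.Dt => e.1)
      Subtype.val_injective.injOn).subset fun e he => ⟨he, ?_⟩
    exact Set.mem_biUnion he e.2
  refine ⟨B.Dt, B.H, ρ, B.connected e0, B.nbr_finite hfin, B.H_helly hfin e0, fun v => ?_,
    hE.toFinset, fun v => ?_⟩
  · exact (Set.finite_singleton 1).subset fun g hg =>
      fr g v.1.1 (congrArg (fun e : B.Dt => e.1.1) hg)
  · obtain ⟨g, w, hw, e⟩ := hc v.1.1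
    refine ⟨g, tr g⁻¹ v, hE.mem_toFinset.2 ?_, tr' g v⟩
    show μ g⁻¹ v.1.1 ∈ F
    rwa [← e, ← mm, inv_mul_cancel, m1]

section
variable {L O G : Type} [Group G] (D : GD L O G)

/-- one step along a letter -/
def st_Act (y : G × O) (t : L) (y' : G × O) : Prop :=
  D.ok t ∧ D.src t = y.2 ∧ y' = (y.1 * D.ev t, D.src (D.bar t))

/-- the vertices -/
def In_Act (y : G × O) : Prop :=
  y.2 = D.o0 ∨ ∃ s, D.ok s ∧ D.src s = D.o0 ∧ D.src (D.bar s) = y.2

variable {D}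

theorem symm_Act (y : G × O) (t : L) (y' : G × O) (h : st_Act D y t y') :
    st_Act D y' (D.bar t) y := by
  obtain ⟨h1, h2, rfl⟩ := h
  refine ⟨D.ok_bar t h1, rfl, Prod.ext ?_ ?_⟩
  · simp [D.ev_bar t h1]
  · rw [D.bar_bar, h2]

theorem sq_Act (s t u v : L) (y y1 y2 : G × O) (e : D.E s t u v) (h1 : st_Act D y s y1)
    (h2 : st_Act D y1 t y2) : ∃ y', st_Act D y u y' ∧ st_Act D y' v y2 := by
  by_cases hn : s = u
  · exact ⟨y1, hn ▸ h1, (D.canc e).1 hn ▸ h2⟩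
  have a := D.sq e hn
  have b := D.sq (D.symm e) (Ne.symm hn)
  have c := D.sq (D.rot (D.symm e) (Ne.symm hn)) (QD.ne_bar (D.symm e) (Ne.symm hn))
  have d := D.sq (QD.inv e) fun k => hn ((D.canc e).2 (D.toQD.bar_inj k))
  refine ⟨_, ⟨b.1, a.2.1 ▸ h1.2.1, rfl⟩, c.1, c.2.1, ?_⟩
  rw [h2.2.2, h1.2.2, d.2.1, mul_assoc, mul_assoc, a.2.2]

theorem in_Act {y y' : G × O} {t : L} (h : st_Act D y t y') : In_Act D y' :=
  h.2.2 ▸ D.reach _ (D.ok_bar t h.1)

theorem all_Act (S : G × O → Prop) (hS : ∀ y t y', S y → st_Act D y t y' → S y') {p q : G × O}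
    (hp : In_Act D p) (hq : In_Act D q) (h : S p) : S q := by
  have a : ∃ g, S (g, D.o0) := by
    rcases hp with e | ⟨s, h1, h2, h3⟩
    · exact ⟨p.1, e ▸ h⟩
    · exact ⟨_, hS _ _ _ h ⟨D.ok_bar s h1, h3, by rw [D.bar_bar, h2]⟩⟩
  have b : ∀ k ∈ (⊤ : Subgroup G), ∀ g, S (g, D.o0) ↔ S (g * k, D.o0) := fun k hk => by
    rw [← D.gen] at hk
    induction hk using Subgroup.closure_induction with
    | mem k hk =>
      obtain ⟨t, ⟨h1, h2, h3⟩, rfl⟩ := hk
      intro g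
      have e : st_Act D (g, D.o0) t (g * D.ev t, D.o0) := ⟨h1, h2, by rw [h3]⟩
      exact ⟨fun x => hS _ _ _ x e, fun x => hS _ _ _ x (symm_Act _ _ _ e)⟩
    | one => simp
    | mul k l _ _ i j => exact fun g => by rw [i, j, mul_assoc]
    | inv k _ i => exact fun g => by rw [i (g * k⁻¹), inv_mul_cancel_right]
  obtain ⟨g, a⟩ := a
  have c : ∀ k, S (k, D.o0) := fun k => by
    simpa using (b (g⁻¹ * k) trivial g).1 a
  rcases hq with e | ⟨s, h1, h2, h3⟩
  · have := c q.1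
    rwa [← e] at this
  · exact hS _ s _ (c (q.1 * (D.ev s)⁻¹)) ⟨h1, h2, by simp [h3]⟩

end

theorem act_pf (hO : Om_st) : Act_st := by
  intro L O G _ D
  obtain ⟨Om, ⟨N⟩⟩ := hO L D.toQD
  let A : L → Equiv.Perm Om := fun t =>
    ⟨N.act (D.bar t), N.act t, fun x => by simpa only [D.bar_bar] using N.act_inv (D.bar t) x,
      N.act_inv t⟩
  obtain ⟨φ, T, hT⟩ := D.univ _ A
    (fun t => Equiv.ext fun x => show N.act (D.bar (D.bar t)) x = N.act t x by rw [D.bar_bar])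
    fun s t u v e => inv_injective (by
      rw [mul_inv_rev, mul_inv_rev]
      exact Equiv.ext (N.act_rel e))
  let nf : G × O → G × O → Om := fun p q => (φ q.1 * T q.2)⁻¹ ((φ p.1 * T p.2) N.base)
  have n0 : ∀ p, nf p p = N.base := fun p => Equiv.symm_apply_apply _ _
  have n1 : ∀ p {q t q'}, st_Act D q t q' → nf p q' = N.act t (nf p q) := by
    rintro p q t _ ⟨h1, h2, rfl⟩
    simp only [nf]
    rw [map_mul, mul_assoc, ← hT t h1, h2, ← mul_assoc, mul_inv_rev _ (A t)]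
    rfl
  have n2 : ∀ g p q, nf (g * p.1, p.2) (g * q.1, q.2) = nf p q := fun g p q => by
    simp only [nf, map_mul, mul_assoc, ← Equiv.Perm.mul_apply, mul_inv_rev, inv_mul_cancel_left]
  choose J j0 j1 j2 j3 using fun p => N.track (G × O) p (st_Act D) symm_Act
    (fun y t y1 y2 a b => a.2.2.trans b.2.2.symm) sq_Act
  have key : ∀ p q : {y // In_Act D y}, J p.1 (nf p.1 q.1) q.1 := fun p q =>
    all_Act (fun y => J p.1 (nf p.1 y) y) (fun y t y' a b => n1 _ b ▸ j2 _ _ _ _ _ a b) p.2 q.2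
      (by rw [n0]; exact j0 _)
  have inj : ∀ p q q' : {y // In_Act D y}, nf p.1 q.1 = nf p.1 q'.1 → q = q' := fun p q q' e =>
    Subtype.ext (j1 _ _ _ _ (key p q) (e ▸ key p q'))
  have dn : ∀ (p q : {y // In_Act D y}) t, N.len (N.act t (nf p.1 q.1)) + 1 = N.len (nf p.1 q.1) →
      ∃ y : {y // In_Act D y}, st_Act D q.1 t y.1 := fun p q t h =>
    (j3 _ _ _ t (key p q) h).elim fun y hy => ⟨⟨y, in_Act hy⟩, hy⟩
  let B : BH {y // In_Act D y} :=
    { adj := fun p q => ∃ t, st_Act D p.1 t q.1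
      d := fun p q => N.len (nf p.1 q.1)
      symm := fun ⟨t, h⟩ => ⟨_, symm_Act _ _ _ h⟩
      zero := fun {x y} => (N.zero _).trans
        ⟨fun h => inj x _ _ ((n0 _).trans h.symm), fun h => h ▸ n0 _⟩
      step := fun u x y ⟨t, h⟩ => by
        rw [n1 _ h]
        exact (N.step t _).imp_right Eq.symm
      pred := fun u x h => by
        obtain ⟨t, ht⟩ := N.pred _ h
        obtain ⟨y, hy⟩ := dn u x t ht
        exact ⟨y, ⟨t, hy⟩, by rw [n1 _ hy, ht]⟩
      star := fun u x h => by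
        obtain ⟨z, h1, h2⟩ := N.star _ h
        have k : ∀ t (y : {y // In_Act D y}), st_Act D x.1 t y.1 →
            N.len (nf u.1 y.1) + 1 = N.len (nf u.1 x.1) →
            ∃ (t' : L) (w : {y // In_Act D y}), st_Act D y.1 t' w.1 ∧ nf u.1 w.1 = z :=
          fun t y a b => by
            obtain ⟨t', e⟩ := h2 t (n1 _ a ▸ b)
            rw [← n1 _ a] at e
            obtain ⟨w, hw⟩ := dn u y t' (by rw [e]; omega)
            exact ⟨t', w, hw, (n1 _ hw).trans e⟩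
        obtain ⟨t, ht⟩ := N.pred (nf u.1 x.1) (by omega)
        obtain ⟨y, hy⟩ := dn u x t ht
        obtain ⟨-, w, -, e⟩ := k t y hy (by rw [n1 _ hy, ht])
        refine ⟨w, by rw [e, h1], fun y' ⟨s, a⟩ b => ?_⟩
        obtain ⟨s', w', c, e'⟩ := k s y' a b
        exact ⟨s', inj u _ _ (e'.trans e.symm) ▸ c⟩ }
  obtain ⟨t0, a0, b0⟩ := D.ne
  have s0 : st_Act D (1, D.o0) t0 _ := ⟨a0, b0, rfl⟩
  refine hel_Act B (fun g y => ⟨(g * y.1.1, y.1.2), y.2⟩) (fun x => by simp)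
    (fun g h x => by simp [mul_assoc]) ?_ (fun g x y => congrArg N.len (n2 g x.1 y.1)) (fun x => ?_)
    ⟨(⟨_, Or.inl rfl⟩, ⟨_, in_Act s0⟩), t0, s0⟩
    (fun g x h => mul_eq_right.1 (congrArg (·.1.1) h)) {y | y.1.1 = 1} ?_
    fun x => ⟨x.1.1, ⟨(1, x.1.2), x.2⟩, rfl, by simp⟩
  · rintro g x y ⟨t, h1, h2, h3⟩
    exact ⟨t, h1, h2, by simp [h3, mul_assoc]⟩
  · exact ((D.fin.image fun t => (x.1.1 * D.ev t, D.src (D.bar t))).preimage
      Subtype.val_injective.injOn).subset fun y ⟨t, h⟩ => ⟨t, h.1, h.2.2.symm⟩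
  · refine (((D.fin.image fun s => ((1 : G), D.src (D.bar s))).insert (1, D.o0)).preimage
      Subtype.val_injective.injOn).subset fun y h => ?_
    exact y.2.imp (fun e => Prod.ext h e) fun ⟨s, a, _, b⟩ => ⟨s, a, Prod.ext (Eq.symm h) b⟩

end Pool.Agent.MP_f411ce_al.LT
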