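import Pool.Agent.MP_f411ce_al.LT.St

set_option autoImplicit false

namespace Pool.Agent.MP_f411ce_al.LT

section
variable {G : Type} [Group G] (g h : G)

theorem even_Ev (a : ℤ) : alt g h (2 * a) = (g * h) ^ a := by
  rw [alt, show 2 * a / 2 = a by omega, show 2 * a % 2 = 0 by omega, zpow_zero, mul_one]

theorem odd_Ev (a : ℤ) : alt g h (2 * a + 1) = (g * h) ^ a * g := by
  rw [alt, show (2 * a + 1) / 2 = a by omega, show (2 * a + 1) % 2 = 1 by omega, zpow_one]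

theorem zero_Ev : alt g h 0 = 1 := by simpa using even_Ev g h 0

theorem one_Ev : alt g h 1 = g := by simpa using odd_Ev g h 0

theorem neg_one_Ev : alt g h (-1) = h⁻¹ := by simpa using odd_Ev g h (-1)

theorem semi_Ev (b : ℤ) : g * (h * g) ^ b = (g * h) ^ b * g :=
  (SemiconjBy.zpow_right (a := g) (x := h * g) (y := g * h) (mul_assoc g h g).symm b).eq

theorem add_even_Ev {i : ℤ} (hi : i % 2 = 0) (j : ℤ) : alt g h (i + j) = alt g h i * alt g h j := by
  obtain ⟨a, rfl⟩ : ∃ a, i = 2 * a := ⟨i / 2, by omega⟩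
  obtain ⟨b, rfl | rfl⟩ : ∃ b, j = 2 * b ∨ j = 2 * b + 1 := ⟨j / 2, by omega⟩
  · rw [← mul_add, even_Ev, even_Ev, even_Ev, zpow_add]
  · rw [← add_assoc, ← mul_add, odd_Ev, even_Ev, odd_Ev, zpow_add, mul_assoc]

theorem add_odd_Ev {i : ℤ} (hi : i % 2 = 1) (j : ℤ) : alt g h (i + j) = alt g h i * alt h g j := by
  obtain ⟨a, rfl⟩ : ∃ a, i = 2 * a + 1 := ⟨i / 2, by omega⟩
  obtain ⟨b, rfl | rfl⟩ : ∃ b, j = 2 * b ∨ j = 2 * b + 1 := ⟨j / 2, by omega⟩
  · rw [show 2 * a + 1 + 2 * b = 2 * (a + b) + 1 by ring, odd_Ev, odd_Ev, even_Ev, zpow_add,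
      mul_assoc, mul_assoc, semi_Ev]
  · rw [show 2 * a + 1 + (2 * b + 1) = 2 * (a + b + 1) by ring, even_Ev, odd_Ev, odd_Ev,
      zpow_add_one, zpow_add, mul_assoc _ g, ← mul_assoc g, semi_Ev, mul_assoc, mul_assoc]

theorem neg_Ev {m : ℤ} (e : alt g h m = alt h g m) : alt g h (-m) = alt h g (-m) := by
  rcases Int.emod_two_eq_zero_or_one m with hm | hm
  · have h1 := add_even_Ev g h hm (-m)
    have h2 := add_even_Ev h g hm (-m)
    rw [add_neg_cancel, zero_Ev] at h1 h2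
    rw [e] at h1
    exact mul_left_cancel (h1.symm.trans h2)
  · have h1 := add_odd_Ev g h hm (-m)
    have h2 := add_odd_Ev h g hm (-m)
    rw [add_neg_cancel, zero_Ev] at h1 h2
    rw [e] at h1
    exact mul_left_cancel (h2.symm.trans h1)

end

section
variable {B : Type} {D : AD B} {G : Type} [Group G] {x : B → G}

theorem ext_Ev (hB : D.Br x) {a b : B} {z : Bool} (h : D.Val (a, b, z)) (t : Bool) :
    D.ev x (.ext s(a, b) z t) = alt (x a) (x b) (D.dl (a, b, z) (if t then D.m a b else 0)) := by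
  have h3 : 3 ≤ D.m a b := h.1
  have e := D.symm b a
  rw [AD.ev, D.mm_mk]
  rcases AD.out_cases a b with c | c <;> rw [c.1, c.2]
  have k : D.dl (b, a, z) (if t then D.m a b else 0) = D.dl (a, b, z) (if t then D.m a b else 0) ∧
      (D.dl (a, b, z) (if t then D.m a b else 0) = 0 ∨
        D.dl (a, b, z) (if t then D.m a b else 0) = D.m a b ∨
        D.dl (a, b, z) (if t then D.m a b else 0) = -D.m a b) := by
    simp only [AD.dl, AD.n, e]
    split_ifs <;> omega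
  rw [k.1]
  rcases k.2 with k | k | k <;> rw [k]
  · rw [zero_Ev, zero_Ev]
  · exact (hB a b h3).symm
  · exact (neg_Ev _ _ (hB a b h3)).symm

theorem lab_Ev (hB : D.Br x) (γ : Gm B) (k : ℤ) (h : D.In γ k) :
    D.ev x (D.lab γ k) = alt (x γ.1) (x γ.2.1) (D.dl γ k) := by
  obtain ⟨a, b, z⟩ := γ
  have h3 := h.1.ar
  unfold AD.lab
  split_ifs with c1 c2 c3 c4
  · rw [c1]
    exact ext_Ev hB h.1 false
  · rw [c2]
    exact ext_Ev hB h.1 true
  · have e : D.dl (a, b, z) k = 1 := by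
      unfold AD.dl
      split_ifs <;> omega
    rw [e, one_Ev]
    rfl
  · have e : D.dl (a, b, z) k = -1 := by
      unfold AD.dl
      split_ifs <;> omega
    rw [e, neg_one_Ev]
    rfl
  · rfl

theorem mul_Ev (hB : D.Br x) {γ : Gm B} {k k' : ℤ} (h : D.In γ k) (h' : D.In γ k') :
    D.ev x (D.lab γ k) * D.ev x (D.lab (D.nx γ k) k') =
      alt (x γ.1) (x γ.2.1) (D.dl γ k + D.dl (D.nx γ k) k') := by
  have h3 := h.1.ar
  rw [lab_Ev hB _ _ h, lab_Ev hB _ _ (h'.nx k)]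
  by_cases c : D.n γ % 2 = 0 ∧ k % 2 = 0
  · rw [add_even_Ev _ _ (by unfold AD.dl; split_ifs <;> omega), AD.nx, if_pos c]
  · rw [add_odd_Ev _ _ (by unfold AD.dl; split_ifs <;> omega), AD.nx, if_neg c]
    rfl

theorem sum_Ev {γ : Gm B} (h : D.Val γ) (k k' : ℤ) : D.dl γ k + D.dl (D.nx γ k) k' =
    if D.n γ % 2 = 1 then 2 * (k + k') - 2 * D.n γ else if (k + k') % 2 = 0 then k + k' - D.n γ
    else k + k' - D.U γ.1 γ.2.1 + 1 - if γ.2.2 then 0 else D.n γ := by
  have h3 := h.ar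
  rw [AD.dl.eq_1 D (D.nx γ k), D.n_nx]
  obtain ⟨a, b, z⟩ := γ
  by_cases c : D.n (a, b, z) % 2 = 0 ∧ k % 2 = 0
  · rw [AD.nx, if_pos c]
    cases z <;> simp only [AD.dl, Bool.not_true, Bool.not_false, Bool.false_eq_true, if_true,
      if_false] at h3 ⊢ <;> split_ifs <;> omega
  · rw [AD.nx, if_neg c]
    cases z <;> simp only [AD.dl, op, Bool.false_eq_true, if_true, if_false] at h3 ⊢ <;>
      split_ifs <;> omega

end

theorem ev_pf : Ev_st := by
  intro B D G _ x hB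
  refine ⟨lab_Ev hB, ?_, ?_⟩
  · rintro t (⟨b, e, rfl⟩ | ⟨γ, k, h, rfl⟩)
    · cases e <;> simp [AD.bar, AD.ev]
    · have h' : D.In γ (D.n γ - k) := ⟨h.1, by linarith [h.2.2], by linarith [h.2.1]⟩
      have e := mul_Ev hB h h'
      have e' : D.dl γ k + D.dl (D.nx γ k) (D.n γ - k) = 0 := by
        rw [sum_Ev h.1]
        split_ifs <;> omega
      rw [e', zero_Ev] at e
      rw [AD.bar_lab h]
      exact eq_inv_of_mul_eq_one_right e
  · rintro s t u v ⟨γ, k, k', j, j', h1, h2, h3, h4, e, -, rfl, rfl, rfl, rfl⟩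
    rw [mul_Ev hB h1 h2, mul_Ev hB h3 h4, sum_Ev h1.1, sum_Ev h1.1, e]

end Pool.Agent.MP_f411ce_al.LT
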