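import Pool.Agent.MP_f411ce_al.LT.St

/-! Artin groups of large type are Helly, from the parts. -/

set_option autoImplicit false

namespace Pool.Agent.MP_f411ce_al.LT

open CoxeterSystem

theorem prod_Fin {B G : Type} [Group G] (x : B → G) (n : ℕ) (i j : B) :
    ((alternatingWord i j n).map x).prod =
      if n % 2 = 0 then alt (x i) (x j) n else alt (x j) (x i) n := by
  induction n generalizing i j with
  | zero => simp [alternatingWord, alt]
  | succ n ih =>
    rw [alternatingWord_succ, List.concat_eq_append, List.map_append, List.prod_append, ih]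
    rcases Nat.mod_two_eq_zero_or_one n with h | h
    · rw [if_pos h, if_neg (by omega), alt, alt, show ((n + 1 : ℕ) : ℤ) / 2 = n / 2 by omega,
        show ((n + 1 : ℕ) : ℤ) % 2 = 1 by omega, show (n : ℤ) % 2 = 0 by omega]
      simp
    · rw [if_neg (by omega), if_pos (by omega), alt, alt,
        show ((n + 1 : ℕ) : ℤ) / 2 = n / 2 + 1 by omega, show ((n + 1 : ℕ) : ℤ) % 2 = 0 by omega,
        show (n : ℤ) % 2 = 1 by omega, zpow_add_one]
      simp [mul_assoc]

/-- The braid relators. -/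
def rels {B : Type} (M : CoxeterMatrix B) : Set (FreeGroup B) :=
  {r | ∃ i j, r = ((braidWord M i j).map FreeGroup.of).prod *
    (((braidWord M j i).map FreeGroup.of).prod)⁻¹}

theorem lift_Fin {B G : Type} [Group G] (φ : FreeGroup B →* G) (M : CoxeterMatrix B) (i j : B) :
    φ (((braidWord M i j).map FreeGroup.of).prod *
      (((braidWord M j i).map FreeGroup.of).prod)⁻¹) = 1 ↔
    alt (φ (.of i)) (φ (.of j)) (M i j) = alt (φ (.of j)) (φ (.of i)) (M i j) := by
  rw [map_mul, map_inv, mul_inv_eq_one, map_list_prod, map_list_prod, List.map_map, List.map_map,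
    braidWord, braidWord, prod_Fin, prod_Fin, M.symmetric j i]
  split_ifs
  · rfl
  · exact eq_comm

/-- The labels and indices of a Coxeter matrix. -/
def ad_Fin {B : Type} (M : CoxeterMatrix B) (f : B → ℕ) (hf : Function.Injective f) : AD B where
  m x y := M x y
  U x y := if (M x y : ℤ) % 2 = 1 then (M x y + 1) / 2 else if f x < f y then M x y - 1 else 3
  symm x y := by rw [M.symmetric]
  diag x := by simp
  odd x y h1 h2 := by rw [if_pos h2]; omega
  even x y h1 h2 := by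
    have h3 : f x ≠ f y := fun e => by
      rw [hf e, M.diagonal] at h1
      omega
    rw [M.symmetric y x]
    split_ifs <;> omega

theorem br_Fin {B H : Type} [Group H] (D : AD B) (A : Lt B → H) (T : Option (Sym2 B) → H)
    (h : ∀ γ k, D.In γ k → T (src (D.lab γ k)) * A (D.lab γ k) =
      alt (A (.gen γ.1 true)) (A (.gen γ.2.1 true)) (D.dl γ k) * T (src (D.bar (D.lab γ k)))) :
    D.Br fun b => A (.gen b true) := by
  intro a b hab
  let γ : Gm B := (a, b, decide (D.m a b % 2 = 0))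
  have hv : D.Val γ := ⟨hab, fun e => of_decide_eq_true e⟩
  have e0 : D.n γ = D.m a b := rfl
  have e1 := h γ (D.n γ) ⟨hv, by omega, le_rfl⟩
  have e2 := h (op γ) (D.n γ) ⟨hv.op, by omega, (D.n_op γ).ge⟩
  have d : ∀ γ' : Gm B, D.n γ' = D.m a b → γ'.2.2 = γ.2.2 → D.dl γ' (D.n γ) = D.m a b := by
    intro γ' c1 c2
    rw [AD.dl, c1, c2, e0]
    by_cases c : D.m a b % 2 = 1
    · rw [if_pos c]; omega
    · rw [if_neg c, if_neg c, if_pos (decide_eq_true (by omega))]
  have d1 := d γ rfl rfl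
  have d2 := d (op γ) (D.n_op γ) rfl
  rw [D.lab_op_top, e1, d1, d2] at e2
  exact mul_right_cancel e2

theorem fin_pf (hA : Act_st) (hQ : QA_st) (hH : Hel_st) (hE : Ev_st) (hU : Un_st) (B : Type)
    [Finite B] (M : CoxeterMatrix B) (hM : ∀ i j, M i j ≠ 2) :
    Helly (PresentedGroup (rels M)) := by
  rcases isEmpty_or_nonempty B with hB | ⟨⟨b0⟩⟩
  · have : Finite (PresentedGroup (rels M)) := Quotient.finite _
    exact ⟨Unit, ⊥, 1, SimpleGraph.Connected.of_subsingleton, fun _ => Set.toFinite _,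
      fun S _ => ⟨(), fun p _ => by simp⟩, fun _ => Set.toFinite _, {()}, fun _ => ⟨1, (), by simp⟩⟩
  obtain ⟨f, hf⟩ := Countable.exists_injective_nat B
  let D := ad_Fin M f hf
  obtain ⟨q1, q2, q3, q4⟩ := hQ B D
  have hb : D.Br (PresentedGroup.of : B → PresentedGroup (rels M)) := fun a b _ =>
    (lift_Fin (PresentedGroup.mk (rels M)) M a b).1 (PresentedGroup.one_of_mem ⟨a, b, rfl⟩)
  obtain ⟨v1, v2, v3⟩ := hE B D _ _ hb
  refine hA (Lt B) (Option (Sym2 B)) _
    { bar := D.bar, E := D.E, bar_bar := D.bar_bar, refl := fun _ _ => Or.inl ⟨rfl, rfl⟩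
      symm := ?_, trans := q1 _ _ _ _ _ _, canc := q2 _ _ _ _, rot := q3 _ _ _ _
      triv := q4 _ _ _, helly := hH B D, ok := D.ok, src := src, o0 := none
      ev := D.ev PresentedGroup.of, fin := ?_, ok_bar := ?_, ev_bar := v2, sq := ?_, gen := ?_
      reach := ?_, ne := ⟨.gen b0 true, Or.inl ⟨_, _, rfl⟩, rfl⟩, univ := ?_ }
  · rintro s t u v (⟨rfl, rfl⟩ | ⟨γ, k, k', j, j', a1, a2, a3, a4, a5, a6, a7, a8, a9, a10⟩)
    · exact Or.inl ⟨rfl, rfl⟩
    · exact Or.inr ⟨γ, j, j', k, k', a3, a4, a1, a2, a5.symm, a5 ▸ a6, a9, a10, a7, a8⟩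
  · refine ((Set.finite_range fun p : B × Bool => Lt.gen p.1 p.2).union
      (Set.finite_iUnion fun γ : Gm B => (Set.finite_Icc 0 (D.n γ)).image (D.lab γ))).subset ?_
    rintro t (⟨x, e, rfl⟩ | ⟨γ, k, h, rfl⟩)
    · exact Or.inl ⟨(x, e), rfl⟩
    · exact Or.inr (Set.mem_iUnion.2 ⟨γ, k, h.2, rfl⟩)
  · rintro t (⟨x, e, rfl⟩ | ⟨γ, k, h, rfl⟩)
    · exact Or.inl ⟨x, !e, rfl⟩
    · exact Or.inr ⟨_, _, AD.In.nx ⟨h.1, by have := h.2; omega⟩ k, AD.bar_lab h⟩
  · rintro s t u v (⟨h, -⟩ | h) hn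
    · exact absurd h hn
    · refine ⟨?_, ?_, v3 _ _ _ _ h⟩ <;>
        obtain ⟨γ, k, k', j, j', a1, -, -, -, -, -, rfl, -, rfl, -⟩ := h
      · exact Or.inr ⟨γ, k, a1, rfl⟩
      · rw [AD.src_lab, AD.src_lab]
  · refine top_le_iff.1 ((PresentedGroup.closure_range_of (rels M)).ge.trans
      (Subgroup.closure_mono ?_))
    rintro _ ⟨b, rfl⟩
    exact ⟨.gen b true, ⟨Or.inl ⟨_, _, rfl⟩, rfl, rfl⟩, rfl⟩
  · rintro t (⟨x, e, rfl⟩ | ⟨⟨x, y, z⟩, k, h, rfl⟩)
    · exact Or.inl rfl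
    cases z
    · exact Or.inl (AD.src_lab _ _)
    have h1 : D.In (x, y, false) (D.n (x, y, false)) :=
      ⟨⟨h.1.1, nofun⟩, le_trans (by norm_num) h.1.1, le_rfl⟩
    refine Or.inr ⟨_, Or.inr ⟨_, _, h1, rfl⟩, AD.src_lab _ _, ?_⟩
    rw [AD.bar_lab h1, show D.nx (x, y, false) (D.n (x, y, false)) = (x, y, true) from
      if_pos ⟨h.1.2 rfl, h.1.2 rfl⟩, AD.src_lab, AD.src_lab]
  · intro H _ A h1 h2
    obtain ⟨T, t0, t1⟩ := hU B D H A h1 fun s t u v h => h2 s t u v (Or.inr h)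
    have hr : ∀ r ∈ rels M, FreeGroup.lift (fun b => A (.gen b true)) r = 1 := by
      rintro _ ⟨i, j, rfl⟩
      rw [lift_Fin, FreeGroup.lift_apply_of, FreeGroup.lift_apply_of]
      by_cases hij : i = j
      · rw [hij]
      rcases Nat.eq_zero_or_pos (M i j) with h0 | h0
      · simp [h0, alt]
      · have := M.off_diagonal i j hij
        have := hM i j
        exact br_Fin D A T t1 i j (show (3 : ℤ) ≤ M i j by omega)
    refine ⟨PresentedGroup.toGroup hr, T, ?_⟩
    rintro t (⟨x, e, rfl⟩ | ⟨γ, k, h, rfl⟩)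
    · cases e
      · simpa [src, AD.bar, AD.ev, t0] using h1 (.gen x true)
      · simp [src, AD.bar, AD.ev, t0]
    · rw [t1 γ k h, v1 γ k h]
      simp [alt]

end Pool.Agent.MP_f411ce_al.LT
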