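import Pool.Agent.MP_f411ce_al.LT.St

set_option autoImplicit false

namespace Pool.Agent.MP_f411ce_al.LT

open AD

variable {B : Type} {D : AD B}

/-- The first letters of a class with two members form an interval in one germ. -/
theorem cls_Hel {a b x0 y0 : Lt B} (h0 : D.E x0 y0 a b) (hx : x0 ≠ a) :
    ∃ (γ : Gm B) (h : ℤ), h ≠ D.n γ ∧ ∀ x, (∃ y, D.E x y a b) ↔
      ∃ k, D.In γ k ∧ D.In γ (h - k) ∧ x = D.lab γ k := by
  obtain ⟨γ, k, k', j, j', i1, i2, i3, i4, s1, s2, rfl, -, rfl, rfl⟩ := h0.resolve_left fun e => hx e.1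
  have hk : k ≠ j := fun e => hx (by rw [e])
  refine ⟨γ, j + j', by omega, fun x => ⟨?_, ?_⟩⟩
  · rintro ⟨y, ⟨rfl, -⟩ | ⟨γ', l, l', m, m', a1, a2, a3, a4, t1, t2, rfl, -, e1, e2⟩⟩
    · exact ⟨j, i3, by rwa [add_sub_cancel_left], rfl⟩
    by_cases c : γ = γ'
    · subst c
      obtain rfl := lab_inj e1
      obtain rfl := lab_inj e2
      exact ⟨l, a1, by rwa [← t1, add_sub_cancel_left], rfl⟩
    exfalso
    have e3 := congrArg D.bar e1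
    rw [bar_lab i3, bar_lab a3] at e3
    have hn : D.nx γ j ≠ D.nx γ' m := fun e => c (by
      have e4 := congrArg D.n e
      rw [n_nx, n_nx] at e4
      rw [e] at e3
      have e5 := lab_inj e3
      rw [← D.nx_back γ j, e, e5, D.nx_back])
    have hv := (i3.1.nx j).ne
    have b1 := i1.2
    have b2 := i2.2
    have b3 := i3.2
    have b4 := i4.2
    have e6 := D.n_nx γ j
    rcases rigid hn e2 with ⟨r1, -, r2⟩ | ⟨r1, r2, r3⟩ | ⟨r1, r2, r3⟩ <;>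
    rcases rigid hn e3 with ⟨q1, -, q2⟩ | ⟨q1, q2, q3⟩ | ⟨q1, q2, q3⟩
    · omega
    · rw [r1] at q2; exact hv q2.symm
    · rw [r1] at q2; exact hv q2
    · rw [q1] at r2; exact hv r2.symm
    · have := lab_inj (r1.trans q1.symm); omega
    · exact q3 r2
    · rw [q1] at r2; exact hv r2
    · exact r3 q2
    · have := lab_inj (r1.trans q1.symm); omega
  · rintro ⟨l, a1, a2, rfl⟩
    exact ⟨_, Or.inr ⟨γ, l, _, j, j', a1, a2, i3, i4, by omega, by omega, rfl, rfl, rfl, rfl⟩⟩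

/-- A letter shared by two different germs is one of the letters shared with a third germ. -/
theorem core_Hel {γ γ' ρ : Gm B} (v1 : D.Val γ) (v2 : D.Val γ') (v3 : D.Val ρ)
    {i i' a a' b b' : ℤ} (hn : γ ≠ γ') (e : D.lab γ i = D.lab γ' i')
    (e1 : D.lab ρ a = D.lab γ a') (e2 : D.lab ρ b = D.lab γ' b')
    (t1 : (i = 0 ∨ i = D.n γ) → (a' = 0 ∨ a' = D.n γ) → i = a')
    (t2 : (i' = 0 ∨ i' = D.n γ') → (b' = 0 ∨ b' = D.n γ') → i' = b') :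
    D.lab γ i = D.lab ρ a ∨ D.lab γ i = D.lab ρ b := by
  have n1 := v1.ne
  have n2 := v2.ne
  have n3 := v3.ne
  have R := rigid hn e
  by_cases c1 : ρ = γ
  · subst c1
    right
    rcases R with ⟨r1, r2, r3⟩ | ⟨r1, r2, r3⟩ | ⟨r1, r2, r3⟩ <;>
    rcases rigid hn e2 with ⟨q1, q2, q3⟩ | ⟨q1, q2, q3⟩ | ⟨q1, q2, q3⟩
    · have e4 : D.n γ' = D.n ρ := by rw [r1, n_op]
      rw [e, e2, t2 (by omega) (by omega)]
    · rw [r1] at q2; exact (n1 q2.symm).elim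
    · rw [r1] at q2; exact (n1 q2).elim
    · rw [q1] at r2; exact (n1 r2.symm).elim
    · rw [r1, q1]
    · exact (q3 r2).elim
    · rw [q1] at r2; exact (n1 r2).elim
    · exact (r3 q2).elim
    · rw [r1, q1]
  by_cases c2 : ρ = γ'
  · subst c2
    left
    rcases R with ⟨r1, r2, r3⟩ | ⟨r1, r2, r3⟩ | ⟨r1, r2, r3⟩ <;>
    rcases rigid c1 e1 with ⟨q1, q2, q3⟩ | ⟨q1, q2, q3⟩ | ⟨q1, q2, q3⟩
    · have e4 : D.n ρ = D.n γ := by rw [r1, n_op]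
      rw [e1, t1 r3 (by omega)]
    · rw [r1] at q2; exact (n1 q2).elim
    · rw [r1] at q2; exact (n1 q2.symm).elim
    · rw [q1] at r2; exact (n2 r2).elim
    · rw [r1, q1, r2]
    · exact (r3 q2.symm).elim
    · rw [q1] at r2; exact (n2 r2.symm).elim
    · exact (r3 q2.symm).elim
    · rw [r1, q1, r2]
  obtain ⟨x, y, z⟩ := γ
  obtain ⟨x', y', z'⟩ := γ'
  obtain ⟨u, v, w⟩ := ρ
  rcases R with ⟨r1, -, -⟩ | ⟨r1, r2, r3⟩ | ⟨r1, r2, r3⟩ <;>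
  rcases rigid c1 e1 with ⟨q1, -, -⟩ | ⟨q1, q2, q3⟩ | ⟨q1, q2, q3⟩ <;>
  rcases rigid c2 e2 with ⟨p1, -, -⟩ | ⟨p1, p2, p3⟩ | ⟨p1, p2, p3⟩ <;>
  first
    | exact Or.inl (by rw [r1, q1, q2])
    | (exfalso; clear e e1 e2 t1 t2 v1 v2 v3; simp_all [op])

theorem fam_Hel {ι : Type} (p0 : ι) (g : ι → Gm B) (h : ι → ℤ) (hn : ∀ p, h p ≠ D.n (g p))
    (H : ∀ p q, ∃ i i', (D.In (g p) i ∧ D.In (g p) (h p - i)) ∧
      (D.In (g q) i' ∧ D.In (g q) (h q - i')) ∧ D.lab (g p) i = D.lab (g q) i') :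
    ∃ x, ∀ p, ∃ k, D.In (g p) k ∧ D.In (g p) (h p - k) ∧ x = D.lab (g p) k := by
  by_cases c : ∀ p, g p = g p0
  · have H' : ∀ p q, ∃ i, (0 ≤ i ∧ i ≤ D.n (g p0)) ∧ h p - i ≤ D.n (g p0) ∧ 0 ≤ h q - i := by
      intro p q
      obtain ⟨i, i', ⟨a1, a2⟩, ⟨a3, a4⟩, e⟩ := H p q
      rw [c p] at a1 a2 e
      rw [c q] at e
      obtain rfl := lab_inj e
      exact ⟨i, a1.2, a2.2.2, a4.2.1⟩
    obtain ⟨k, ⟨p, hp⟩, hk⟩ := Int.exists_greatest_of_bdd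
      (P := fun k => ∃ p, k = max 0 (h p - D.n (g p0)))
      ⟨D.n (g p0), by
        rintro _ ⟨p, rfl⟩
        obtain ⟨i, a1, a2, -⟩ := H' p p
        omega⟩ ⟨_, p0, rfl⟩
    obtain ⟨_, _, ⟨⟨v, -⟩, -⟩, -⟩ := H p0 p0
    refine ⟨D.lab (g p0) k, fun q => ⟨k, ?_⟩⟩
    obtain ⟨i, a1, a2, a3⟩ := H' p q
    have := hk _ ⟨q, rfl⟩
    rw [c q]
    exact ⟨⟨v, by omega, by omega⟩, ⟨v, by omega, by omega⟩, rfl⟩
  obtain ⟨p, hp⟩ := not_forall.1 c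
  obtain ⟨i, i', ⟨a1, a2⟩, ⟨a3, a4⟩, e⟩ := H p p0
  refine ⟨D.lab (g p) i, fun r => ?_⟩
  obtain ⟨a, a', b1, ⟨b2, b3⟩, e1⟩ := H r p
  obtain ⟨b, b', c1, ⟨c2, c3⟩, e2⟩ := H r p0
  have n1 := hn p
  have n2 := hn p0
  have n3 := a1.1.1
  have n4 := a3.1.1
  have n5 := And.intro a2.2 b3.2
  have n6 := And.intro a4.2 c3.2
  rcases core_Hel a1.1 a3.1 b1.1.1 hp e e1 e2 (by omega) (by omega) with t | t
  · exact ⟨a, b1.1, b1.2, t⟩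
  · exact ⟨b, c1.1, c1.2, t⟩

theorem hel_pf (hQ : QA_st) : Hel_st := by
  intro B D F hF H
  by_cases c : ∃ p ∈ F, ∀ x y, D.E x y p.1 p.2 → x = p.1
  · obtain ⟨p, hp, c⟩ := c
    refine ⟨p.1, fun q hq => ?_⟩
    obtain ⟨x, y, y', e1, e2⟩ := H p hp q hq
    exact ⟨y', c x y e1 ▸ e2⟩
  have key : ∀ p : F, ∃ (γ : Gm B) (h : ℤ), h ≠ D.n γ ∧ ∀ x, (∃ y, D.E x y p.1.1 p.1.2) ↔
      ∃ k, D.In γ k ∧ D.In γ (h - k) ∧ x = D.lab γ k := by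
    intro p
    by_contra hc
    exact c ⟨p.1, p.2, fun x y e => by_contra fun hx => hc (cls_Hel e hx)⟩
  choose g h hn hN using key
  obtain ⟨p0, hp0⟩ := hF
  obtain ⟨x, hx⟩ := fam_Hel ⟨p0, hp0⟩ g h hn fun p q => by
    obtain ⟨x, y, y', e1, e2⟩ := H p.1 p.2 q.1 q.2
    obtain ⟨i, a1, a2, a3⟩ := (hN p x).1 ⟨y, e1⟩
    obtain ⟨i', b1, b2, b3⟩ := (hN q x).1 ⟨y', e2⟩
    exact ⟨i, i', ⟨a1, a2⟩, ⟨b1, b2⟩, a3.symm.trans b3⟩
  exact ⟨x, fun p hp => (hN ⟨p, hp⟩ x).2 (hx _)⟩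

end Pool.Agent.MP_f411ce_al.LT
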