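import Pool.Agent.MP_f411ce_al.LT.St

/-! Equivalent words: geodesic words stay geodesic, and the quadrangle property holds. -/

set_option autoImplicit false

namespace Pool.Agent.MP_f411ce_al.LT

variable {L : Type} {Q : QD L}

theorem not_good_KG (p : L) (w : List L) : ¬ Q.Good (Q.bar p :: p :: w) := fun g =>
  g.2 ⟨w, by rw [Q.bar_bar]; exact .refl _⟩

theorem step_KG {s t u v : L} {w : List L}
    (hK : ∀ w', Q.Eqv (u :: w) w' → Q.Good (u :: w) → Q.K (u :: w) w') (e : Q.E s t u v)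
    (g : Q.Good (t :: s :: w)) : Q.Good (v :: u :: w) := by
  by_cases hn : s = u
  · rw [← (Q.canc e).1 hn, ← hn]
    exact g
  have g1 : Q.Good (u :: w) := ⟨g.1.1, fun ⟨w', h⟩ =>
    g.2 ⟨v :: w', (QD.Eqv.cons s h).trans (.step w' (QD.rot' e hn))⟩⟩
  refine ⟨g1, fun ⟨w', h⟩ => ?_⟩
  have h0 : u ≠ Q.bar v := fun h1 =>
    QD.ne_bar (Q.symm e) (Ne.symm hn) (by rw [h1, Q.bar_bar])
  rcases hK _ h g1 with ⟨h1, -⟩ | ⟨w0, p, q, e1, a1, -⟩
  · exact h0 h1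
  have e2 := Q.rot e1 fun h1 => h0 ((Q.canc e1).1 h1)
  rw [Q.bar_bar] at e2
  have e3 := QD.rot' (Q.trans e e2) fun h1 => g.1.2 ⟨w0, by rwa [h1, Q.bar_bar]⟩
  rw [Q.bar_bar] at e3
  exact g.2 ⟨q :: w0, (QD.Eqv.cons s a1).trans (.step w0 e3)⟩

theorem good_KG {n : ℕ} (hK : ∀ w w', w.length < n → Q.Eqv w w' → Q.Good w → Q.K w w')
    {w w' : List L} (h : Q.Eqv w w') (hn : w.length ≤ n) : Q.Good w ↔ Q.Good w' := by
  induction h with
  | refl => exact Iff.rfl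
  | symm h ih => exact (ih (h.length_eq.le.trans hn)).symm
  | trans h _ ih ih' => exact (ih hn).trans (ih' (h.length_eq.ge.trans hn))
  | cons s h ih =>
    have h1 := ih (Nat.le_of_succ_le hn)
    exact ⟨fun g => ⟨h1.1 g.1, fun m => g.2 (m.of_eqv h.symm)⟩,
      fun g => ⟨h1.2 g.1, fun m => g.2 (m.of_eqv h)⟩⟩
  | step w e =>
    exact ⟨step_KG (fun w' => hK _ w' hn) e, step_KG (fun w' => hK _ w' hn) (Q.symm e)⟩

theorem side_KG {k k1 k2 a p u : L} (e1 : Q.E k k1 a (Q.bar p)) (e2 : Q.E k k2 a u)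
    (hn : Q.bar p ≠ u) : Q.E p u (Q.bar k1) k2 := by
  by_cases h : k = a
  · rw [(Q.canc e1).1 h, (Q.canc e2).1 h, Q.bar_bar]
    exact Q.refl _ _
  have e3 := Q.rot (Q.trans (Q.symm (QD.rot' e1 h)) (QD.rot' e2 h)) hn
  rw [Q.bar_bar, Q.bar_bar] at e3
  exact Q.symm e3

theorem cube_KG {s t r u v u' v' p p' : L} (e1 : Q.E u s v t) (e2 : Q.E v' t u' r)
    (e3 : Q.E p v p' v') (h1 : u ≠ v) (h2 : v' ≠ u') (h3 : Q.bar p ≠ u) (h4 : Q.bar p' ≠ u')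
    (h5 : t ≠ Q.bar v) (h6 : ∀ x, ¬ Q.E v t (Q.bar p) x) :
    ∃ q a b, Q.E p u q a ∧ Q.E p' u' q b ∧ Q.E a s b r := by
  have r1 := QD.rot' e1 h1
  have r2 := Q.rot e2 h2
  have r3 := QD.inv e3
  obtain ⟨k, hk⟩ := Q.helly {(Q.bar v, Q.bar p), (t, Q.bar s), (t, Q.bar r)}
    ⟨_, Or.inl rfl⟩ (by
      rintro _ (rfl | rfl | rfl) _ (rfl | rfl | rfl)
      · exact ⟨_, _, _, Q.refl _ _, Q.refl _ _⟩
      · exact ⟨_, _, _, Q.refl _ _, r1⟩
      · exact ⟨_, _, _, Q.symm r3, Q.symm r2⟩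
      · exact ⟨_, _, _, r1, Q.refl _ _⟩
      · exact ⟨_, _, _, Q.refl _ _, Q.refl _ _⟩
      · exact ⟨_, _, _, Q.refl _ _, Q.refl _ _⟩
      · exact ⟨_, _, _, Q.symm r2, Q.symm r3⟩
      · exact ⟨_, _, _, Q.refl _ _, Q.refl _ _⟩
      · exact ⟨_, _, _, Q.refl _ _, Q.refl _ _⟩)
  obtain ⟨k1, f1⟩ := hk _ (Or.inl rfl)
  obtain ⟨k2, f2⟩ := hk _ (Or.inr (Or.inl rfl))
  obtain ⟨k3, f3⟩ := hk _ (Or.inr (Or.inr rfl))
  have hkt : k ≠ t := by
    rintro rfl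
    have f4 := QD.rot' f1 h5
    rw [Q.bar_bar] at f4
    exact h6 _ f4
  have f5 := Q.trans (Q.rot f2 hkt) (Q.symm (Q.rot f3 hkt))
  rw [Q.bar_bar, Q.bar_bar] at f5
  exact ⟨_, k2, k3, side_KG f1 (Q.trans f2 (Q.symm r1)) h3,
    side_KG (Q.trans f1 r3) (Q.trans f3 r2) h4, f5⟩

theorem symm_KG {w w' : List L} (h : Q.K w w') : Q.K w' w := by
  rcases w with _ | ⟨s, w1⟩ <;> rcases w' with _ | ⟨t, w2⟩ <;> try trivial
  rcases h with ⟨rfl, h⟩ | ⟨w0, u, v, h1, h2, h3⟩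
  · exact Or.inl ⟨rfl, h.symm⟩
  · exact Or.inr ⟨w0, v, u, Q.symm h1, h3, h2⟩

theorem quad_KG {n : ℕ} (hK : ∀ w w', w.length < n → Q.Eqv w w' → Q.Good w → Q.K w w')
    {w w' : List L} (h : Q.Eqv w w') (hn : w.length ≤ n) (g : Q.Good w) : Q.K w w' := by
  induction h with
  | refl w =>
    rcases w with _ | ⟨s, w⟩
    · trivial
    · exact Or.inl ⟨rfl, .refl _⟩
  | symm h ih => exact symm_KG (ih (h.length_eq.le.trans hn) ((good_KG hK h.symm hn).1 g))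
  | cons s h _ => exact Or.inl ⟨rfl, h⟩
  | step w h => exact Or.inr ⟨w, _, _, h, .refl _, .refl _⟩
  | @trans w w' w'' h h' ih ih' =>
    have k1 := ih hn g
    have g' := (good_KG hK h hn).1 g
    have hn' : w'.length ≤ n := h.length_eq.ge.trans hn
    have k2 := ih' hn' g'
    have g'' := (good_KG hK h' hn').1 g'
    have hn'' : w''.length ≤ n := h'.length_eq.ge.trans hn'
    rcases w with _ | ⟨s, w1⟩
    · trivial
    rcases w'' with _ | ⟨r, w3⟩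
    · trivial
    rcases w' with _ | ⟨t, w2⟩
    · simpa using h.length_eq
    rcases k1 with ⟨rfl, k1⟩ | ⟨w0, u, v, e1, a1, a2⟩
    · rcases k2 with ⟨rfl, k2⟩ | ⟨w0, u, v, e1, a1, a2⟩
      · exact Or.inl ⟨rfl, k1.trans k2⟩
      · exact Or.inr ⟨w0, u, v, e1, k1.trans a1, a2⟩
    rcases k2 with ⟨rfl, k2⟩ | ⟨w0', v', u', e2, b1, b2⟩
    · exact Or.inr ⟨w0, u, v, e1, a1, k2.symm.trans a2⟩
    have gv : Q.Good (t :: v :: w0) := (good_KG hK (.cons t a2) hn').1 g'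
    have hl : (v :: w0).length < n := a2.length_eq ▸ hn'
    rcases hK _ _ hl (a2.symm.trans b1) gv.1 with ⟨rfl, k3⟩ | ⟨w00, p, p', e3, c1, c2⟩
    · exact Or.inr ⟨w0, u, u', Q.trans e1 e2, a1, b2.trans (.cons _ k3.symm)⟩
    by_cases h1 : u = v
    · subst h1
      rw [(Q.canc e1).1 rfl]
      exact Or.inr ⟨w0', v', u', e2, a1.trans (a2.symm.trans b1), b2⟩
    by_cases h2 : v' = u'
    · subst h2
      rw [← (Q.canc e2).1 rfl]
      exact Or.inr ⟨w0, u, v, e1, a1, b2.trans (b1.symm.trans a2)⟩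
    have d1 : Q.Eqv w1 (u :: p :: w00) := a1.trans (.cons _ c1)
    have d2 : Q.Eqv w3 (u' :: p' :: w00) := b2.trans (.cons _ c2)
    have d3 : Q.Eqv (t :: w2) (t :: v :: p :: w00) := .cons t (a2.trans (.cons _ c1))
    obtain ⟨q, a, b, f1, f2, f3⟩ := cube_KG e1 e2 e3 h1 h2
      (fun e => not_good_KG p w00 (e ▸ (good_KG hK d1 (Nat.le_of_succ_le hn)).1 g.1))
      (fun e => not_good_KG p' w00 (e ▸ (good_KG hK d2 (Nat.le_of_succ_le hn'')).1 g''.1))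
      (fun e => not_good_KG v w0 (e ▸ gv))
      fun x e => not_good_KG p w00 ((good_KG hK (d3.trans (.step _ e)) hn').1 g').1
    exact Or.inr ⟨q :: w00, a, b, f3, d1.trans (.step w00 f1), d2.trans (.step w00 f2)⟩

theorem all_KG (n : ℕ) : ∀ w w', w.length < n → Q.Eqv w w' → Q.Good w → Q.K w w' := by
  induction n with
  | zero => exact fun _ _ h => absurd h (Nat.not_lt_zero _)
  | succ n ih => exact fun _ _ h e => quad_KG ih e (Nat.le_of_lt_succ h)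

theorem kg_pf : KG_st := fun _ _ w _ h g =>
  ⟨(good_KG (all_KG w.length) h le_rfl).1 g, quad_KG (all_KG w.length) h le_rfl g⟩

end Pool.Agent.MP_f411ce_al.LT
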