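import Pool.Agent.MP_f411ce_al.LT.St

set_option autoImplicit false

namespace Pool.Agent.MP_f411ce_al.LT

open QD

/-- The quadrangle property for the data `Q`. -/
def H_Om {L : Type} (Q : QD L) : Prop :=
  ∀ w w' : List L, Q.Eqv w w' → Q.Good w → Q.Good w' ∧ Q.K w w'

theorem cancel_Om {L : Type} {Q : QD L} (hK : H_Om Q) {s : L} {w1 w2 : List L}
    (h : Q.Eqv (s :: w1) (s :: w2)) (g : Q.Good (s :: w1)) : Q.Eqv w1 w2 := by
  rcases (hK _ _ h g).2 with ⟨-, k⟩ | ⟨w0, u, v, e, a1, a2⟩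
  · exact k
  · have : u = v := (Q.canc e).2 rfl
    subst this
    exact a1.trans a2.symm

/-- Geodesic words. -/
def GW_Om {L : Type} (Q : QD L) : Type := {w : List L // Q.Good w}

open Classical in
/-- Right multiplication by a letter. -/
noncomputable def f_Om {L : Type} {Q : QD L} (hK : H_Om Q) (t : L) (w : GW_Om Q) : GW_Om Q :=
  if h : Q.Mem w.1 t then ⟨h.choose, (hK _ _ h.choose_spec w.2).1.1⟩ else ⟨t :: w.1, w.2, h⟩

theorem f_down_Om {L : Type} {Q : QD L} (hK : H_Om Q) {t : L} {w : GW_Om Q} (h : Q.Mem w.1 t) :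
    Q.Eqv w.1 (Q.bar t :: (f_Om hK t w).1) := by
  rw [f_Om, dif_pos h]
  exact h.choose_spec

theorem f_up_Om {L : Type} {Q : QD L} (hK : H_Om Q) {t : L} {w : GW_Om Q} (h : ¬ Q.Mem w.1 t) :
    (f_Om hK t w).1 = t :: w.1 := by
  rw [f_Om, dif_neg h]

theorem f_down_of_Om {L : Type} {Q : QD L} (hK : H_Om Q) {t : L} {w : GW_Om Q} {w' : List L}
    (h : Q.Eqv w.1 (Q.bar t :: w')) : Q.Eqv (f_Om hK t w).1 w' := by
  have h1 := f_down_Om hK (w := w) ⟨w', h⟩
  exact cancel_Om hK (h1.symm.trans h) (hK _ _ h1 w.2).1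

theorem f_resp_Om {L : Type} {Q : QD L} (hK : H_Om Q) (t : L) {w w' : GW_Om Q}
    (h : Q.Eqv w.1 w'.1) : Q.Eqv (f_Om hK t w).1 (f_Om hK t w').1 := by
  by_cases hm : Q.Mem w.1 t
  · exact f_down_of_Om hK (h.trans (f_down_Om hK (Mem.of_eqv h hm)))
  · have hm' : ¬ Q.Mem w'.1 t := fun m => hm (Mem.of_eqv h.symm m)
    rw [f_up_Om hK hm, f_up_Om hK hm']
    exact Eqv.cons t h

theorem f_inv_Om {L : Type} {Q : QD L} (hK : H_Om Q) (t : L) (w : GW_Om Q) :
    Q.Eqv (f_Om hK (Q.bar t) (f_Om hK t w)).1 w.1 := by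
  by_cases hm : Q.Mem w.1 t
  · have h1 := f_down_Om hK hm
    rw [f_up_Om hK (hK _ _ h1 w.2).1.2]
    exact h1.symm
  · apply f_down_of_Om
    rw [Q.bar_bar, f_up_Om hK hm]
    exact Eqv.refl _

theorem f_inv'_Om {L : Type} {Q : QD L} (hK : H_Om Q) (t : L) (w : GW_Om Q) :
    Q.Eqv (f_Om hK t (f_Om hK (Q.bar t) w)).1 w.1 := by
  have := f_inv_Om hK (Q.bar t) w
  rwa [Q.bar_bar] at this

theorem f_rel_down_Om {L : Type} {Q : QD L} (hK : H_Om Q) {n : ℕ}
    (ih : ∀ w : GW_Om Q, w.1.length < n → ∀ s t u v : L, Q.E s t u v →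
      Q.Eqv (f_Om hK t (f_Om hK s w)).1 (f_Om hK v (f_Om hK u w)).1)
    (w : GW_Om Q) (hn : w.1.length = n) {s t u v : L}
    (e : Q.E s t u v) (hsu : s ≠ u) (hs : Q.Mem w.1 s) :
    Q.Eqv (f_Om hK t (f_Om hK s w)).1 (f_Om hK v (f_Om hK u w)).1 := by
  have e' : Q.E t (Q.bar v) (Q.bar s) u := Q.rot e hsu
  have hl : (f_Om hK s w).1.length < n := by
    have := (f_down_Om hK hs).length_eq
    simp only [List.length_cons] at this
    omega
  have k := ih (f_Om hK s w) hl _ _ _ _ e'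
  have k2 := k.trans (f_resp_Om hK u (f_inv_Om hK s w))
  exact (f_inv'_Om hK v _).symm.trans (f_resp_Om hK v k2)

theorem f_rel_Om {L : Type} {Q : QD L} (hK : H_Om Q) (n : ℕ) : ∀ w : GW_Om Q, w.1.length = n →
    ∀ s t u v : L, Q.E s t u v →
      Q.Eqv (f_Om hK t (f_Om hK s w)).1 (f_Om hK v (f_Om hK u w)).1 := by
  induction n using Nat.strong_induction_on with
  | _ n ihn =>
    intro w hn s t u v e
    have ih : ∀ w : GW_Om Q, w.1.length < n → ∀ s t u v : L, Q.E s t u v →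
        Q.Eqv (f_Om hK t (f_Om hK s w)).1 (f_Om hK v (f_Om hK u w)).1 :=
      fun w hw => ihn _ hw w rfl
    by_cases hsu : s = u
    · have htv : t = v := (Q.canc e).1 hsu
      subst hsu
      subst htv
      exact Eqv.refl _
    by_cases hs : Q.Mem w.1 s
    · exact f_rel_down_Om hK ih w hn e hsu hs
    by_cases hu : Q.Mem w.1 u
    · exact (f_rel_down_Om hK ih w hn (Q.symm e) (Ne.symm hsu) hu).symm
    have es := f_up_Om hK hs
    have eu := f_up_Om hK hu
    by_cases ht : Q.Mem (f_Om hK s w).1 t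
    · have h1 := f_down_Om hK ht
      have hst : s ≠ Q.bar t := fun h => ne_bar e hsu (by rw [h, Q.bar_bar])
      have g1 := (f_Om hK s w).2
      rw [es] at h1 g1
      rcases (hK _ _ h1 g1).2 with ⟨k, -⟩ | ⟨w0, p, q, e1, a1, a2⟩
      · exact absurd k hst
      · have hup : u ≠ Q.bar p := by
          intro h
          refine hu ⟨w0, ?_⟩
          rw [h, Q.bar_bar]
          exact a1
        have e3 := Q.rot e1 fun h => hst ((Q.canc e1).1 h)
        rw [Q.bar_bar] at e3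
        have e2 := rot' (Q.trans (Q.symm e) e3) hup
        rw [Q.bar_bar] at e2
        refine Eqv.symm (f_down_of_Om hK ?_)
        rw [eu]
        exact (Eqv.cons u a1).trans ((Eqv.step w0 e2).trans (Eqv.cons _ a2.symm))
    · have g : Q.Good (t :: s :: w.1) := ⟨⟨w.2, hs⟩, es ▸ ht⟩
      have hv : ¬ Q.Mem (f_Om hK u w).1 v := by
        rw [eu]
        exact (hK _ _ (Eqv.step _ e) g).1.2
      rw [f_up_Om hK ht, f_up_Om hK hv, es, eu]
      exact Eqv.step _ e

/-- The congruence on geodesic words. -/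
def sd_Om {L : Type} (Q : QD L) : Setoid (GW_Om Q) where
  r w w' := Q.Eqv w.1 w'.1
  iseqv := ⟨fun _ => Eqv.refl _, Eqv.symm, Eqv.trans⟩

theorem mem_of_len_Om {L : Type} {Q : QD L} (hK : H_Om Q) {t : L} {w : GW_Om Q}
    (h : (f_Om hK t w).1.length + 1 = w.1.length) : Q.Mem w.1 t := by
  by_contra hm
  rw [f_up_Om hK hm, List.length_cons] at h
  omega

/-- The state reached along a word. -/
def Tr_Om {L Y : Type} (y0 : Y) (st : Y → L → Y → Prop) : List L → Y → Prop
  | [], y => y = y0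
  | t :: w, y' => ∃ y, Tr_Om y0 st w y ∧ st y t y'

theorem Tr_eqv_Om {L Y : Type} {Q : QD L} (y0 : Y) {st : Y → L → Y → Prop}
    (h3 : ∀ s t u v y y1 y2, Q.E s t u v → st y s y1 → st y1 t y2 → ∃ y', st y u y' ∧ st y' v y2)
    {w w' : List L} (h : Q.Eqv w w') : ∀ y, Tr_Om y0 st w y ↔ Tr_Om y0 st w' y := by
  have k : ∀ {s t u v : L} (w : List L), Q.E s t u v → ∀ y, Tr_Om y0 st (t :: s :: w) y →
      Tr_Om y0 st (v :: u :: w) y := by
    rintro s t u v w e y ⟨y1, ⟨y2, p1, p2⟩, p3⟩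
    obtain ⟨y', q1, q2⟩ := h3 _ _ _ _ _ _ _ e p2 p3
    exact ⟨y', ⟨y2, p1, q1⟩, q2⟩
  induction h with
  | refl => exact fun _ => Iff.rfl
  | symm _ ih => exact fun y => (ih y).symm
  | trans _ _ ih ih' => exact fun y => (ih y).trans (ih' y)
  | cons s _ ih => exact fun y => exists_congr fun y1 => and_congr_left' (ih y1)
  | step w e => exact fun y => ⟨k w e y, k w (Q.symm e) y⟩

theorem Tr_fun_Om {L Y : Type} (y0 : Y) {st : Y → L → Y → Prop}
    (h2 : ∀ y t y1 y2, st y t y1 → st y t y2 → y1 = y2) (w : List L) :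
    ∀ y y', Tr_Om y0 st w y → Tr_Om y0 st w y' → y = y' := by
  induction w with
  | nil => exact fun y y' h h' => h.trans h'.symm
  | cons t w ih =>
    rintro y y' ⟨y1, p1, p2⟩ ⟨y2, q1, q2⟩
    obtain rfl := ih _ _ p1 q1
    exact h2 _ _ _ _ p2 q2

theorem om_pf (hK : KG_st) (hS : Star_st) : Om_st := by
  intro L Q
  have hK : H_Om Q := hK L Q
  refine ⟨Quotient (sd_Om Q), ⟨{
    base := Quotient.mk _ ⟨[], trivial⟩
    act := fun t => Quotient.map (f_Om hK t) fun _ _ h => f_resp_Om hK t h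
    len := Quotient.lift (fun w : GW_Om Q => w.1.length) fun _ _ h => Eqv.length_eq h
    act_inv := fun t x => ?_
    act_rel := fun e x => ?_
    step := fun t x => ?_
    zero := fun x => ?_
    pred := fun x => ?_
    star := fun x => ?_
    track := fun Y y0 st h1 h2 h3 => ?_ }⟩⟩
  · induction x using Quotient.inductionOn with
    | _ w => exact Quotient.sound (f_inv_Om hK t w)
  · induction x using Quotient.inductionOn with
    | _ w => exact Quotient.sound (f_rel_Om hK _ w rfl _ _ _ _ e)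
  · induction x using Quotient.inductionOn with
    | _ w =>
      by_cases h : Q.Mem w.1 t
      · exact Or.inr (f_down_Om hK h).length_eq.symm
      · exact Or.inl (congrArg List.length (f_up_Om hK h))
  · refine ⟨fun h => ?_, fun h => h ▸ rfl⟩
    induction x using Quotient.inductionOn with
    | _ w =>
      obtain ⟨w, g⟩ := w
      obtain rfl : w = [] := List.length_eq_zero_iff.1 h
      rfl
  · induction x using Quotient.inductionOn with
    | _ w =>
      obtain ⟨_ | ⟨s, w⟩, g⟩ := w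
      · exact fun h => absurd h (lt_irrefl 0)
      · refine fun _ => ⟨Q.bar s, (f_down_Om hK (w := ⟨s :: w, g⟩) ⟨w, ?_⟩).length_eq.symm⟩
        rw [Q.bar_bar]
        exact Eqv.refl _
  · induction x using Quotient.inductionOn with
    | _ w =>
      intro h
      obtain ⟨w0, a, b, k⟩ := hS L Q w.1 w.2 h
      have m : ∃ s, Q.Mem w.1 s := by
        obtain ⟨_ | ⟨s, w⟩, g⟩ := w
        · exact absurd h (show ¬ 2 ≤ 0 by decide)
        · refine ⟨Q.bar s, w, ?_⟩
          rw [Q.bar_bar]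
          exact Eqv.refl _
      obtain ⟨s, m⟩ := m
      obtain ⟨s', -, e⟩ := k s m
      refine ⟨Quotient.mk _ ⟨w0, (hK _ _ e w.2).1.1.1⟩, e.length_eq.symm, fun t ht => ?_⟩
      obtain ⟨t', -, e'⟩ := k t (mem_of_len_Om hK ht)
      exact ⟨t', Quotient.sound (f_down_of_Om hK (f_down_of_Om hK e'))⟩
  · have dn : ∀ (w : GW_Om Q) (y : Y) (t : L), Tr_Om y0 st w.1 y → Q.Mem w.1 t →
        ∃ y', Tr_Om y0 st (f_Om hK t w).1 y' ∧ st y t y' := by
      intro w y t p m
      obtain ⟨y1, q1, q2⟩ := (Tr_eqv_Om y0 h3 (f_down_Om hK m) y).1 p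
      have := h1 _ _ _ q2
      rw [Q.bar_bar] at this
      exact ⟨y1, q1, this⟩
    refine ⟨Quotient.lift (fun w : GW_Om Q => Tr_Om y0 st w.1) fun _ _ h =>
      funext fun y => propext (Tr_eqv_Om y0 h3 h y), rfl, fun x => ?_, fun x => ?_, fun x => ?_⟩
    · induction x using Quotient.inductionOn with
      | _ w => exact Tr_fun_Om y0 h2 w.1
    · induction x using Quotient.inductionOn with
      | _ w =>
        intro y t y' p q
        show Tr_Om y0 st (f_Om hK t w).1 y'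
        by_cases m : Q.Mem w.1 t
        · obtain ⟨y1, q1, q2⟩ := dn w y t p m
          exact h2 _ _ _ _ q2 q ▸ q1
        · rw [f_up_Om hK m]
          exact ⟨y, p, q⟩
    · induction x using Quotient.inductionOn with
      | _ w => exact fun y t p q => (dn w y t p (mem_of_len_Om hK q)).imp fun _ h => h.2

end Pool.Agent.MP_f411ce_al.LT
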