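import Pool.Agent.MP_f411ce_al.LT.St

set_option autoImplicit false

namespace Pool.Agent.MP_f411ce_al.LT

open AD

variable {B : Type} {D : AD B}

theorem triv_QA {s u v : Lt B} (h : D.E s (D.bar s) u v) : s = u := by
  rcases h with h | ⟨γ, k, k', j, j', h1, -, -, -, -, h6, rfl, h8, -, -⟩
  · exact h.1
  · rw [bar_lab h1] at h8
    have := lab_inj h8
    omega

theorem rot_QA {s t u v : Lt B} (h : D.E s t u v) (hn : s ≠ u) :
    D.E t (D.bar v) (D.bar s) u := by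
  rcases h with h | ⟨γ, k, k', j, j', h1, h2, h3, h4, h5, h6, rfl, rfl, rfl, rfl⟩
  · exact absurd h.1 hn
  have hk : k ≠ j := fun e => hn (e ▸ rfl)
  have e := D.n_nx γ k
  have a1 := h1.2
  have a4 := h4.2
  refine Or.inr ⟨D.nx γ k, k', D.n γ - j', D.n γ - k, j, h2.nx k,
    In.nx ⟨h1.1, by omega, by omega⟩ k, In.nx ⟨h1.1, by omega, by omega⟩ k, h3.nx k, by omega,
    by omega, rfl, ?_, bar_lab h1, by rw [nx_back]⟩
  rw [bar_lab (h4.nx j), n_nx, D.nx_nx γ h5]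

theorem canc_QA {s t u v : Lt B} (h : D.E s t u v) : s = u ↔ t = v := by
  refine ⟨fun e => ?_, fun e => by_contra fun hn => ?_⟩
  · rcases h with h | ⟨γ, k, k', j, j', -, -, -, -, h5, -, rfl, rfl, rfl, rfl⟩
    · exact h.2
    · obtain rfl := lab_inj e
      obtain rfl : k' = j' := by omega
      rfl
  · subst e
    obtain rfl := triv_QA (rot_QA h hn)
    exact hn (triv_QA h)

theorem two_QA {a a' : Gm B} {i i' j j' : ℤ} (ha : D.Val a) (hn : a ≠ a')
    (e1 : D.lab a i = D.lab a' i') (e2 : D.lab a j = D.lab a' j') (hij : i ≠ j) :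
    (i = 0 ∨ i = D.n a) ∧ (j = 0 ∨ j = D.n a) := by
  have h := ha.ne
  rcases rigid hn e1 with ⟨a1, -, a2⟩ | ⟨a1, a2, a3⟩ | ⟨a1, a2, a3⟩ <;>
    rcases rigid hn e2 with ⟨b1, -, b2⟩ | ⟨b1, b2, b3⟩ | ⟨b1, b2, b3⟩
  · exact ⟨a2, b2⟩
  · subst a1
    exact absurd b2.symm h
  · subst a1
    exact absurd b2 h
  · subst b1
    exact absurd a2.symm h
  · exact absurd (lab_inj (a1.trans b1.symm)) hij
  · exact absurd b2 a3
  · subst b1
    exact absurd a2 h
  · exact absurd a2 b3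
  · exact absurd (lab_inj (a1.trans b1.symm)) hij

theorem trans_QA {s t u v p q : Lt B} (h : D.E s t u v) (h' : D.E u v p q) : D.E s t p q := by
  rcases h with ⟨rfl, rfl⟩ | ⟨γ, k, k', j, j', h1, h2, h3, h4, h5, h6, rfl, rfl, hu, hv⟩
  · exact h'
  rcases h' with ⟨rfl, rfl⟩ | h'
  · exact Or.inr ⟨γ, k, k', j, j', h1, h2, h3, h4, h5, h6, rfl, rfl, hu, hv⟩
  have h0 := h'
  obtain ⟨γ', i, i', l, l', g1, g2, g3, g4, g5, g6, gu, gv, rfl, rfl⟩ := h'
  have e1 : D.lab (D.nx γ j) (D.n γ - j) = D.lab (D.nx γ' i) (D.n γ' - i) := by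
    rw [← bar_lab h3, ← bar_lab g1, ← hu, ← gu]
  have e2 : D.lab (D.nx γ j) j' = D.lab (D.nx γ' i) i' := hv.symm.trans gv
  by_cases c : D.nx γ j = D.nx γ' i
  · have e3 : γ = γ' := by
      rw [← D.nx_back γ j, ← D.nx_back γ' i, ← c]
      rw [← c] at e1
      rw [lab_inj e1]
    subst e3
    rw [← c] at e1 e2
    have a1 := lab_inj e1
    have a2 := lab_inj e2
    exact Or.inr ⟨γ, k, k', l, l', h1, h2, g3, g4, by omega, h6, rfl, rfl, rfl, rfl⟩
  · have a := two_QA (h3.1.nx j) c e1 e2 (by omega)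
    rw [n_nx] at a
    have a1 := h1.2
    have a2 := h2.2
    obtain rfl : k = j := by omega
    obtain rfl : k' = j' := by omega
    rw [← hu, ← hv]
    exact Or.inr h0

theorem qa_pf : QA_st := fun _ _ =>
  ⟨fun _ _ _ _ _ _ => trans_QA, fun _ _ _ _ => canc_QA, fun _ _ _ _ => rot_QA,
    fun _ _ _ => triv_QA⟩

end Pool.Agent.MP_f411ce_al.LT
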