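import Pool.Agent.MP_f411ce_al.Abstract

/-! Definitions and statements of the steps: Artin groups of large type are Helly. -/

set_option autoImplicit false

namespace Pool.Agent.MP_f411ce_al.LT

/-! ### Quadratic data -/

/-- Letters with an involution and an equivalence relation on two letter words. -/
structure QD (L : Type) where
  bar : L → L
  E : L → L → L → L → Prop
  bar_bar : ∀ s, bar (bar s) = s
  refl : ∀ s t, E s t s t
  symm : ∀ {s t u v}, E s t u v → E u v s t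
  trans : ∀ {s t u v p q}, E s t u v → E u v p q → E s t p q
  canc : ∀ {s t u v}, E s t u v → (s = u ↔ t = v)
  rot : ∀ {s t u v}, E s t u v → s ≠ u → E t (bar v) (bar s) u
  triv : ∀ {s u v}, E s (bar s) u v → s = u
  helly : ∀ F : Set (L × L), F.Nonempty →
    (∀ p ∈ F, ∀ q ∈ F, ∃ x y y', E x y p.1 p.2 ∧ E x y' q.1 q.2) →
    ∃ x, ∀ p ∈ F, ∃ y, E x y p.1 p.2

namespace QD

variable {L : Type} (Q : QD L)

theorem bar_inj {s t : L} (h : Q.bar s = Q.bar t) : s = t := by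
  rw [← Q.bar_bar s, h, Q.bar_bar]

variable {Q}

theorem ne_bar {s t u v : L} (h : Q.E s t u v) (hn : s ≠ u) : t ≠ Q.bar s := by
  rintro rfl
  exact hn (Q.triv h)

/-- from `s t = u v` to `u⁻¹ s = v t⁻¹` -/
theorem rot' {s t u v : L} (h : Q.E s t u v) (hn : s ≠ u) : Q.E (Q.bar u) s v (Q.bar t) :=
  Q.symm (Q.rot (Q.symm h) hn.symm)

/-- from `s t = u v` to `t⁻¹ s⁻¹ = v⁻¹ u⁻¹` -/
theorem inv {s t u v : L} (h : Q.E s t u v) : Q.E (Q.bar t) (Q.bar s) (Q.bar v) (Q.bar u) := by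
  by_cases hn : s = u
  · rw [← (Q.canc h).1 hn, hn]; exact Q.refl _ _
  · exact Q.symm (Q.rot (Q.rot h hn) (ne_bar h hn))

variable (Q)

/-- The congruence on words (the last letter is written first). -/
inductive Eqv : List L → List L → Prop
  | refl (w : List L) : Eqv w w
  | symm {w w' : List L} : Eqv w w' → Eqv w' w
  | trans {w w' w'' : List L} : Eqv w w' → Eqv w' w'' → Eqv w w''
  | cons (s : L) {w w' : List L} : Eqv w w' → Eqv (s :: w) (s :: w')
  | step {s t u v : L} (w : List L) : Q.E s t u v → Eqv (t :: s :: w) (v :: u :: w)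

theorem Eqv.length_eq {Q : QD L} {w w' : List L} (h : Q.Eqv w w') : w.length = w'.length := by
  induction h with
  | refl => rfl
  | symm _ ih => exact ih.symm
  | trans _ _ ih ih' => exact ih.trans ih'
  | cons s _ ih => simp [ih]
  | step => rfl

/-- The letter `t` shortens the word `w`. -/
def Mem (w : List L) (t : L) : Prop := ∃ w', Q.Eqv w (Q.bar t :: w')

theorem Mem.of_eqv {Q : QD L} {w w' : List L} {t : L} (h : Q.Eqv w w') (m : Q.Mem w t) :
    Q.Mem w' t := m.imp fun _ e => h.symm.trans e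

/-- Geodesic words. -/
def Good : List L → Prop
  | [] => True
  | s :: w => Good w ∧ ¬ Q.Mem w s

/-- The quadrangle property. -/
def K : List L → List L → Prop
  | s :: w1, t :: w2 => (s = t ∧ Q.Eqv w1 w2) ∨
      ∃ w0 u v, Q.E u s v t ∧ Q.Eqv w1 (u :: w0) ∧ Q.Eqv w2 (v :: w0)
  | _, _ => True

end QD

def KG_st : Prop := ∀ (L : Type) (Q : QD L) (w w' : List L), Q.Eqv w w' → Q.Good w →
  Q.Good w' ∧ Q.K w w'

def Star_st : Prop := ∀ (L : Type) (Q : QD L) (w : List L), Q.Good w → 2 ≤ w.length →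
  ∃ (w0 : List L) (a b : L), ∀ t, Q.Mem w t →
    ∃ t', Q.E t t' a b ∧ Q.Eqv w (Q.bar t :: Q.bar t' :: w0)

/-- Normal forms with the right action of the letters. -/
structure NF {L : Type} (Q : QD L) (Om : Type) where
  base : Om
  act : L → Om → Om
  len : Om → ℕ
  act_inv : ∀ t x, act (Q.bar t) (act t x) = x
  act_rel : ∀ {s t u v}, Q.E s t u v → ∀ x, act t (act s x) = act v (act u x)
  step : ∀ t x, len (act t x) = len x + 1 ∨ len (act t x) + 1 = len x
  zero : ∀ x, len x = 0 ↔ x = base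
  pred : ∀ x, 0 < len x → ∃ t, len (act t x) + 1 = len x
  star : ∀ x, 2 ≤ len x → ∃ z, len z + 2 = len x ∧
    ∀ t, len (act t x) + 1 = len x → ∃ t', act t' (act t x) = z
  track : ∀ (Y : Type) (y0 : Y) (st : Y → L → Y → Prop),
    (∀ y t y', st y t y' → st y' (Q.bar t) y) → (∀ y t y1 y2, st y t y1 → st y t y2 → y1 = y2) →
    (∀ s t u v y y1 y2, Q.E s t u v → st y s y1 → st y1 t y2 → ∃ y', st y u y' ∧ st y' v y2) →
    ∃ J : Om → Y → Prop, J base y0 ∧ (∀ x y y', J x y → J x y' → y = y') ∧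
      (∀ x y t y', J x y → st y t y' → J (act t x) y') ∧
      ∀ x y t, J x y → len (act t x) + 1 = len x → ∃ y', st y t y'

def Om_st : Prop := ∀ (L : Type) (Q : QD L), ∃ Om : Type, Nonempty (NF Q Om)

/-- Quadratic data on a finite set of letters with sources, presenting the group `G`. -/
structure GD (L O G : Type) [Group G] extends QD L where
  ok : L → Prop
  src : L → O
  o0 : O
  ev : L → G
  fin : {t | ok t}.Finite
  ok_bar : ∀ t, ok t → ok (bar t)
  ev_bar : ∀ t, ok t → ev (bar t) = (ev t)⁻¹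
  sq : ∀ {s t u v}, E s t u v → s ≠ u → ok s ∧ src s = src u ∧ ev s * ev t = ev u * ev v
  gen : Subgroup.closure (ev '' {t | ok t ∧ src t = o0 ∧ src (bar t) = o0}) = ⊤
  reach : ∀ t, ok t → src t = o0 ∨ ∃ s, ok s ∧ src s = o0 ∧ src (bar s) = src t
  ne : ∃ t, ok t ∧ src t = o0
  univ : ∀ (H : Type) [Group H] (A : L → H), (∀ t, A (bar t) = (A t)⁻¹) →
    (∀ s t u v, E s t u v → A s * A t = A u * A v) →
    ∃ (φ : G →* H) (T : O → H), ∀ t, ok t → T (src t) * A t = φ (ev t) * T (src (bar t))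

/-- `G` acts geometrically on a Helly graph. -/
def Helly (G : Type) [Group G] : Prop :=
  ∃ (V : Type) (X : SimpleGraph V) (ρ : G →* (X ≃g X)), X.Connected ∧
    (∀ v : V, (X.neighborSet v).Finite) ∧
    (∀ S : Set (V × ℕ), (∀ p ∈ S, ∀ q ∈ S, ∃ x : V, X.dist p.1 x ≤ p.2 ∧ X.dist q.1 x ≤ q.2) →
      ∃ x : V, ∀ p ∈ S, X.dist p.1 x ≤ p.2) ∧
    (∀ v : V, {g | ρ g v = v}.Finite) ∧ ∃ F : Finset V, ∀ v : V, ∃ g, ∃ w ∈ F, ρ g w = v

def Act_st : Prop := ∀ (L O G : Type) [Group G] (_ : GD L O G), Helly G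

/-! ### The columns of an Artin group of large type -/

/-- Labels `m` (only labels at least three count) and the index `U` of the up letter. -/
structure AD (B : Type) where
  m : B → B → ℤ
  U : B → B → ℤ
  symm : ∀ x y, m x y = m y x
  diag : ∀ x, m x x < 3
  odd : ∀ x y, 3 ≤ m x y → m x y % 2 = 1 → 2 * U x y = m x y + 1
  even : ∀ x y, 3 ≤ m x y → m x y % 2 = 0 → U x y % 2 = 1 ∧ 3 ≤ U x y ∧ U x y + U y x = m x y + 2

/-- Letters. -/
inductive Lt (B : Type) where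
  | gen (x : B) (e : Bool)
  | ext (p : Sym2 B) (z t : Bool)
  | mid (x y : B) (z : Bool) (k : ℤ)

/-- Germs of columns. -/
abbrev Gm (B : Type) : Type := B × B × Bool

/-- The alternating product of height `j`. -/
def alt {G : Type} [Group G] (g h : G) (j : ℤ) : G := (g * h) ^ (j / 2) * g ^ (j % 2)

/-- The source of a letter. -/
def src {B : Type} : Lt B → Option (Sym2 B)
  | .gen _ _ => none
  | .ext p z _ => if z then some p else none
  | .mid x y z _ => if z then some s(x, y) else none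

/-- The opposite germ. -/
def op {B : Type} (γ : Gm B) : Gm B := (γ.2.1, γ.1, γ.2.2)

namespace AD

variable {B : Type} (D : AD B)

def n (γ : Gm B) : ℤ := D.m γ.1 γ.2.1

noncomputable def mm (p : Sym2 B) : ℤ := D.m p.out.1 p.out.2

def Val (γ : Gm B) : Prop := 3 ≤ D.n γ ∧ (γ.2.2 = true → D.n γ % 2 = 0)

def nx (γ : Gm B) (k : ℤ) : Gm B :=
  if D.n γ % 2 = 0 ∧ k % 2 = 0 then (γ.1, γ.2.1, !γ.2.2) else op γ

def lab (γ : Gm B) (k : ℤ) : Lt B :=
  if k = 0 then .ext s(γ.1, γ.2.1) γ.2.2 false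
  else if k = D.n γ then .ext s(γ.1, γ.2.1) γ.2.2 true
  else if γ.2.2 = false ∧ k = D.U γ.1 γ.2.1 then .gen γ.1 true
  else if γ.2.2 = false ∧ k = D.n γ - D.U γ.2.1 γ.1 then .gen γ.2.1 false
  else .mid γ.1 γ.2.1 γ.2.2 k

noncomputable def bar : Lt B → Lt B
  | .gen x e => .gen x (!e)
  | .ext p z t => .ext p (if D.mm p % 2 = 0 then !z else z) (!t)
  | .mid x y z k => if D.m x y % 2 = 0 ∧ k % 2 = 0 then .mid x y (!z) (D.m x y - k)
      else .mid y x z (D.m x y - k)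

/-- `k` is the index of a letter of the valid germ `γ`. -/
def In (γ : Gm B) (k : ℤ) : Prop := D.Val γ ∧ 0 ≤ k ∧ k ≤ D.n γ

/-- The squares of the columns. -/
def Sq (s t u v : Lt B) : Prop := ∃ γ k k' j j', D.In γ k ∧ D.In γ k' ∧ D.In γ j ∧ D.In γ j' ∧
  k + k' = j + j' ∧ k + k' ≠ D.n γ ∧ s = D.lab γ k ∧ t = D.lab (D.nx γ k) k' ∧
  u = D.lab γ j ∧ v = D.lab (D.nx γ j) j'

def E (s t u v : Lt B) : Prop := (s = u ∧ t = v) ∨ D.Sq s t u v

def ok (s : Lt B) : Prop := (∃ x e, s = .gen x e) ∨ ∃ γ k, D.In γ k ∧ s = D.lab γ k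

/-- The height of a letter. -/
def dl (γ : Gm B) (k : ℤ) : ℤ :=
  if D.n γ % 2 = 1 then 2 * k - D.n γ else if k % 2 = 1 then k - D.U γ.1 γ.2.1 + 1
  else if γ.2.2 then k else k - D.n γ

/-- The value of a letter. -/
noncomputable def ev {G : Type} [Group G] (x : B → G) : Lt B → G
  | .gen b e => if e then x b else (x b)⁻¹
  | .ext p z t => alt (x p.out.1) (x p.out.2) (D.dl (p.out.1, p.out.2, z) (if t then D.mm p else 0))
  | .mid a b z k => alt (x a) (x b) (D.dl (a, b, z) k)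

/-- The braid relations. -/
def Br {G : Type} [Group G] (x : B → G) : Prop :=
  ∀ a b, 3 ≤ D.m a b → alt (x a) (x b) (D.m a b) = alt (x b) (x a) (D.m a b)

theorem out_cases (x y : B) : (s(x, y).out.1 = x ∧ s(x, y).out.2 = y) ∨
    (s(x, y).out.1 = y ∧ s(x, y).out.2 = x) :=
  Sym2.eq_iff.1 (show s(s(x, y).out.1, s(x, y).out.2) = s(x, y) from Quot.out_eq _)

theorem mm_mk (x y : B) : D.mm s(x, y) = D.m x y := by
  rcases out_cases x y with h | h <;> rw [mm, h.1, h.2]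
  exact D.symm _ _

theorem bar_bar (s : Lt B) : D.bar (D.bar s) = s := by
  cases s with
  | gen x e => simp [bar]
  | ext p z t => by_cases h : D.mm p % 2 = 0 <;> simp [bar, h]
  | mid x y z k =>
    have e := D.symm y x
    by_cases h : D.m x y % 2 = 0 ∧ k % 2 = 0
    · rw [bar, if_pos h, bar, if_pos (by omega)]; simp
    · rw [bar, if_neg h, bar, if_neg (by omega), e]; simp

theorem op_op (γ : Gm B) : op (op γ) = γ := rfl

theorem n_op (γ : Gm B) : D.n (op γ) = D.n γ := D.symm _ _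

theorem n_nx (γ : Gm B) (k : ℤ) : D.n (D.nx γ k) = D.n γ := by
  unfold nx; split_ifs
  · rfl
  · exact D.n_op γ

theorem nx_nx (γ : Gm B) {k k' j j' : ℤ} (h : k + k' = j + j') :
    D.nx (D.nx γ k) k' = D.nx (D.nx γ j) j' := by
  rw [nx, nx.eq_1 D (D.nx γ j), n_nx, n_nx, nx, nx]
  split_ifs <;> first | rfl | omega | simp [op]

theorem nx_back (γ : Gm B) (k : ℤ) : D.nx (D.nx γ k) (D.n γ - k) = γ := by
  rw [nx, n_nx, nx]
  split_ifs <;> first | rfl | omega | simp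

theorem lab_op_zero (γ : Gm B) : D.lab (op γ) 0 = D.lab γ 0 := by
  simp [lab, op, Sym2.eq_swap]

theorem lab_op_top (γ : Gm B) : D.lab (op γ) (D.n γ) = D.lab γ (D.n γ) := by
  have e := D.n_op γ
  by_cases h : D.n γ = 0
  · rw [h, lab_op_zero]
  · rw [lab, lab, if_neg h, if_neg h, if_pos e.symm, if_pos rfl, Sym2.eq_swap]; rfl

variable {D}

theorem Val.ne {γ : Gm B} (h : D.Val γ) : γ.1 ≠ γ.2.1 := fun e => by
  have h1 := h.1
  have h2 := D.diag γ.1
  rw [n, ← e] at h1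
  omega

theorem Val.op {γ : Gm B} (h : D.Val γ) : D.Val (op γ) := by
  rw [Val, n_op]; exact h

theorem Val.nx {γ : Gm B} (h : D.Val γ) (k : ℤ) : D.Val (D.nx γ k) := by
  unfold AD.nx; split_ifs with e
  · exact ⟨h.1, fun _ => e.1⟩
  · exact h.op

theorem In.nx {γ : Gm B} {k : ℤ} (h : D.In γ k) (j : ℤ) : D.In (D.nx γ j) k := by
  rw [In, n_nx]; exact ⟨h.1.nx j, h.2⟩

/-- all arithmetic facts about the indices of the up letters -/
theorem Val.ar {γ : Gm B} (h : D.Val γ) :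
    (D.n γ % 2 = 1 ∧ 2 * D.U γ.1 γ.2.1 = D.n γ + 1 ∧ 2 * D.U γ.2.1 γ.1 = D.n γ + 1) ∨
    (D.n γ % 2 = 0 ∧ D.U γ.1 γ.2.1 % 2 = 1 ∧ D.U γ.2.1 γ.1 % 2 = 1 ∧ 3 ≤ D.U γ.1 γ.2.1 ∧
      3 ≤ D.U γ.2.1 γ.1 ∧ D.U γ.1 γ.2.1 + D.U γ.2.1 γ.1 = D.n γ + 2) := by
  have e := D.symm γ.1 γ.2.1
  have h0 := h.1
  have h1 := D.odd γ.1 γ.2.1
  have h2 := D.odd γ.2.1 γ.1
  have h3 := D.even γ.1 γ.2.1
  have h4 := D.even γ.2.1 γ.1
  unfold n at *
  omega

theorem bar_lab {γ : Gm B} {k : ℤ} (h : D.In γ k) :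
    D.bar (D.lab γ k) = D.lab (D.nx γ k) (D.n γ - k) := by
  obtain ⟨h, h1, h2⟩ := h
  have h3 := h.ar
  have h4 := h.1
  have h5 := h.2
  obtain ⟨x, y, z⟩ := γ
  have e := D.symm y x
  simp only [n] at *
  by_cases c : D.m x y % 2 = 0 ∧ k % 2 = 0
  · rw [show D.nx (x, y, z) k = (x, y, !z) from if_pos c]
    unfold lab
    simp only [n]
    split_ifs <;> first | omega | simp [bar, mm_mk, c]
  · rw [show D.nx (x, y, z) k = (y, x, z) from if_neg c]
    unfold lab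
    cases z <;> simp only [n, e, true_and, Bool.true_eq_false, false_and, if_false] <;>
    split_ifs <;> first | omega | rw [bar, if_neg c] |
      (rw [bar, mm_mk, if_neg (by omega), Sym2.eq_swap]; rfl) | rfl

theorem lab_cases (γ : Gm B) (k : ℤ) :
    (k = 0 ∧ D.lab γ k = .ext s(γ.1, γ.2.1) γ.2.2 false) ∨
    (k = D.n γ ∧ D.lab γ k = .ext s(γ.1, γ.2.1) γ.2.2 true) ∨
    (γ.2.2 = false ∧ D.lab γ k = .gen γ.1 true) ∨ (γ.2.2 = false ∧ D.lab γ k = .gen γ.2.1 false) ∨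
    D.lab γ k = .mid γ.1 γ.2.1 γ.2.2 k := by
  unfold lab
  split_ifs <;> simp_all

theorem lab_inj {γ : Gm B} {i j : ℤ} (e : D.lab γ i = D.lab γ j) : i = j := by
  unfold lab at e
  split_ifs at e <;> simp_all

theorem src_lab (γ : Gm B) (k : ℤ) :
    src (D.lab γ k) = if γ.2.2 then some s(γ.1, γ.2.1) else none := by
  unfold lab
  split_ifs <;> simp_all [src]

theorem lab_up {x y : B} (h : D.Val (x, y, false)) :
    D.lab (x, y, false) (D.U x y) = .gen x true := by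
  have h3 := h.ar
  have h4 := h.1
  simp only at h3
  rw [lab, if_neg (by omega), if_neg (by omega), if_pos ⟨rfl, rfl⟩]

theorem lab_dn {x y : B} (h : D.Val (x, y, false)) :
    D.lab (x, y, false) (D.n (x, y, false) - D.U y x) = .gen y false := by
  have h3 := h.ar
  have h4 := h.1
  simp only at h3
  rw [lab, if_neg (by omega), if_neg (by omega), if_neg (by dsimp only; omega), if_pos ⟨rfl, rfl⟩]

/-- the letters shared by two different germs -/
theorem rigid {γ γ' : Gm B} {i i' : ℤ} (hn : γ ≠ γ') (e : D.lab γ i = D.lab γ' i') :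
    (γ' = op γ ∧ i = i' ∧ (i = 0 ∨ i = D.n γ)) ∨
    (D.lab γ i = .gen γ.1 true ∧ γ'.1 = γ.1 ∧ γ'.2.1 ≠ γ.2.1) ∨
    (D.lab γ i = .gen γ.2.1 false ∧ γ'.2.1 = γ.2.1 ∧ γ'.1 ≠ γ.1) := by
  have c := lab_cases (D := D) γ i
  have c' := lab_cases (D := D) γ' i'
  obtain ⟨x, y, z⟩ := γ
  obtain ⟨x', y', z'⟩ := γ'
  have e1 := D.symm y x
  rw [← e] at c'
  generalize D.lab (x, y, z) i = s at *
  simp only [n] at *
  rcases c with ⟨c1, rfl⟩ | ⟨c1, rfl⟩ | ⟨c1, rfl⟩ | ⟨c1, rfl⟩ | rfl <;> simp_all [op] <;> aesop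

end AD

def QA_st : Prop := ∀ (B : Type) (D : AD B),
  (∀ s t u v p q, D.E s t u v → D.E u v p q → D.E s t p q) ∧
  (∀ s t u v, D.E s t u v → (s = u ↔ t = v)) ∧
  (∀ s t u v, D.E s t u v → s ≠ u → D.E t (D.bar v) (D.bar s) u) ∧
  ∀ s u v, D.E s (D.bar s) u v → s = u

def Hel_st : Prop := ∀ (B : Type) (D : AD B) (F : Set (Lt B × Lt B)), F.Nonempty →
  (∀ p ∈ F, ∀ q ∈ F, ∃ x y y', D.E x y p.1 p.2 ∧ D.E x y' q.1 q.2) →
  ∃ x, ∀ p ∈ F, ∃ y, D.E x y p.1 p.2

def Ev_st : Prop := ∀ (B : Type) (D : AD B) (G : Type) [Group G] (x : B → G), D.Br x →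
  (∀ γ k, D.In γ k → D.ev x (D.lab γ k) = alt (x γ.1) (x γ.2.1) (D.dl γ k)) ∧
  (∀ t, D.ok t → D.ev x (D.bar t) = (D.ev x t)⁻¹) ∧
  ∀ s t u v, D.Sq s t u v → D.ev x s * D.ev x t = D.ev x u * D.ev x v

def Un_st : Prop := ∀ (B : Type) (D : AD B) (H : Type) [Group H] (A : Lt B → H),
  (∀ t, A (D.bar t) = (A t)⁻¹) → (∀ s t u v, D.Sq s t u v → A s * A t = A u * A v) →
  ∃ T : Option (Sym2 B) → H, T none = 1 ∧ ∀ γ k, D.In γ k →
    T (src (D.lab γ k)) * A (D.lab γ k) =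
      alt (A (.gen γ.1 true)) (A (.gen γ.2.1 true)) (D.dl γ k) * T (src (D.bar (D.lab γ k)))

end Pool.Agent.MP_f411ce_al.LT
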