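import Pool.Agent.MP_f411ce_al.LT.St

set_option autoImplicit false

namespace Pool.Agent.MP_f411ce_al.LT

theorem key_Star (hK : KG_st) {L : Type} (Q : QD L) {s t : L} {w1 : List L}
    (g : Q.Good (s :: w1)) (m : Q.Mem (s :: w1) t) (hn : s ≠ Q.bar t) :
    ∃ u v w0, u ≠ v ∧ Q.E u s v (Q.bar t) ∧ Q.Eqv w1 (u :: w0) := by
  obtain ⟨w', e⟩ := m
  rcases (hK L Q _ _ e g).2 with ⟨h, -⟩ | ⟨w0, u, v, h1, h2, -⟩
  · exact absurd h hn
  · exact ⟨u, v, w0, fun h => hn ((Q.canc h1).1 h), h1, h2⟩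

theorem two_Star (hK : KG_st) {L : Type} (Q : QD L) {s p : L} (g : Q.Good [s, p]) (t : L)
    (m : Q.Mem [s, p] t) :
    ∃ t', Q.E t t' (Q.bar s) (Q.bar p) ∧ Q.Eqv [s, p] [Q.bar t, Q.bar t'] := by
  by_cases hn : s = Q.bar t
  · refine ⟨Q.bar p, ?_, ?_⟩
    · rw [hn, Q.bar_bar]
      exact Q.refl _ _
    · rw [← hn, Q.bar_bar]
      exact .refl _
  · obtain ⟨u, v, w0, -, h1, h2⟩ := key_Star hK Q g m hn
    have hp : p = u := by
      rcases (hK L Q _ _ h2 g.1).2 with ⟨h, -⟩ | ⟨w0', u', v', -, h3, -⟩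
      · exact h
      · simpa using h3.length_eq
    subst hp
    refine ⟨Q.bar v, ?_, ?_⟩
    · have := Q.symm (QD.inv h1)
      rwa [Q.bar_bar] at this
    · rw [Q.bar_bar]
      exact .step [] h1

theorem star_pf (hK : KG_st) : Star_st := by
  intro L Q w
  induction w with
  | nil => intro _ h; simp at h
  | cons s w1 ih =>
    intro g hl
    match w1, ih, g, hl with
    | [], _, _, hl => simp at hl
    | [p], _, g, _ => exact ⟨[], Q.bar s, Q.bar p, two_Star hK Q g⟩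
    | p :: q :: w2, ih, g, _ =>
      obtain ⟨w00, a, b, h⟩ := ih g.1 (by simp)
      have hmix : ∀ t, Q.Mem (s :: p :: q :: w2) t → s ≠ Q.bar t →
          ∃ x y y', Q.E x y s t ∧ Q.E x y' a b := by
        intro t m hn
        obtain ⟨u, v, w0, huv, h1, h2⟩ := key_Star hK Q g m hn
        have h3 := Q.rot h1 huv
        rw [Q.bar_bar] at h3
        obtain ⟨t', h4, -⟩ := h (Q.bar u) ⟨w0, by rwa [Q.bar_bar]⟩
        exact ⟨_, _, _, Q.symm h3, h4⟩
      obtain ⟨k, hk⟩ := Q.helly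
        (insert (a, b) {r | r.1 = s ∧ Q.Mem (s :: p :: q :: w2) r.2 ∧ s ≠ Q.bar r.2})
        ⟨_, Set.mem_insert _ _⟩ (by
          rintro ⟨r1, r2⟩ (e | ⟨e, m, hn⟩) ⟨r1', r2'⟩ (e' | ⟨e', m', hn'⟩)
          · rw [e, e']
            exact ⟨_, _, _, Q.refl _ _, Q.refl _ _⟩
          · obtain ⟨x, y, y', h1, h2⟩ := hmix _ m' hn'
            rw [e]
            exact ⟨x, y', y, h2, e' ▸ h1⟩
          · obtain ⟨x, y, y', h1, h2⟩ := hmix _ m hn
            rw [e']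
            exact ⟨x, y, y', e ▸ h1, h2⟩
          · exact ⟨s, r2, r2', e ▸ Q.refl _ _, e' ▸ Q.refl _ _⟩)
      obtain ⟨k0, hk0⟩ := hk (a, b) (Set.mem_insert _ _)
      have hw : Q.Eqv (p :: q :: w2) (Q.bar k :: Q.bar k0 :: w00) := by
        obtain ⟨t', h1, h2⟩ := h (Q.bar p) ⟨q :: w2, by rw [Q.bar_bar]; exact .refl _⟩
        exact h2.trans (.step _ (QD.inv (Q.trans h1 (Q.symm hk0))))
      have hks : s ≠ k := fun e => g.2 ⟨_, e ▸ hw⟩
      refine ⟨Q.bar k0 :: w00, Q.bar s, k, fun t m => ?_⟩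
      by_cases hn : s = Q.bar t
      · refine ⟨k, ?_, ?_⟩
        · rw [hn, Q.bar_bar]
          exact Q.refl _ _
        · rw [← hn]
          exact .cons s hw
      · obtain ⟨kt, h1⟩ := hk (s, t) (Set.mem_insert_of_mem _ ⟨rfl, m, hn⟩)
        refine ⟨Q.bar kt, Q.rot (Q.symm h1) hks, ?_⟩
        rw [Q.bar_bar]
        exact (QD.Eqv.cons s hw).trans (.step _ (QD.rot' (Q.symm h1) hks))

end Pool.Agent.MP_f411ce_al.LT
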