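import Pool.Agent.MP_f411ce_al.LT.St

/-! The universal property of the columns. -/

set_option autoImplicit false

namespace Pool.Agent.MP_f411ce_al.LT

theorem alt_add_Un {G : Type} [Group G] (g h : G) (i j : ℤ) :
    alt g h (i + j) = alt g h i * (if i % 2 = 0 then alt g h j else alt h g j) := by
  have s : g * (h * g) ^ (j / 2) = (g * h) ^ (j / 2) * g :=
    SemiconjBy.zpow_right (a := g) (x := h * g) (y := g * h) (mul_assoc g h g).symm (j / 2)
  unfold alt
  rcases Int.emod_two_eq_zero_or_one i with hi | hi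
  · rw [if_pos hi, hi, show (i + j) / 2 = i / 2 + j / 2 by omega, show (i + j) % 2 = j % 2 by omega,
      zpow_add, zpow_zero, mul_one, mul_assoc]
  · rw [if_neg (by omega), hi, zpow_one, mul_assoc, ← mul_assoc g, s]
    rcases Int.emod_two_eq_zero_or_one j with hj | hj
    · rw [hj, show (i + j) / 2 = i / 2 + j / 2 by omega, show (i + j) % 2 = 1 by omega, zpow_add,
        zpow_zero, zpow_one, mul_one, mul_assoc]
    · rw [hj, show (i + j) / 2 = i / 2 + j / 2 + 1 by omega, show (i + j) % 2 = 0 by omega,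
        zpow_add, zpow_add, zpow_zero, zpow_one, zpow_one, mul_one, mul_assoc, mul_assoc]

theorem chain_Un (Q : ℤ → Prop) (s : ℕ) (n r : ℤ)
    (h : ∀ i : ℕ, r + s * i + s ≤ n → (Q (r + s * i) ↔ Q (r + s * i + s))) (i : ℕ)
    (hi : r + s * i ≤ n) : Q r ↔ Q (r + s * i) := by
  induction i with
  | zero => simp
  | succ i ih =>
    have e : r + (s : ℤ) * (i + 1 : ℕ) = r + s * i + s := by push_cast; ring
    rw [e] at hi ⊢
    exact (ih (by linarith [Int.natCast_nonneg s])).trans (h i hi)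

theorem one_Un (Q : ℤ → Prop) (n k0 : ℤ) (hq : Q k0) (h0 : 0 ≤ k0) (h1 : k0 ≤ n)
    (h : ∀ k, 0 ≤ k → k + 1 ≤ n → (Q k ↔ Q (k + 1))) (k : ℤ) (a : 0 ≤ k) (b : k ≤ n) : Q k := by
  have c := chain_Un Q 1 n 0 fun i hi => h _ (by omega) hi
  have c0 := c k0.toNat (by omega)
  have c1 := c k.toNat (by omega)
  rw [show 0 + ((1 : ℕ) : ℤ) * k0.toNat = k0 by omega] at c0
  rw [show 0 + ((1 : ℕ) : ℤ) * k.toNat = k by omega] at c1
  exact c1.1 (c0.2 hq)

theorem two_Un (Q : ℤ → Prop) (n k0 : ℤ) (hq : Q k0) (h0 : 0 ≤ k0) (h1 : k0 ≤ n)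
    (h : ∀ k, 0 ≤ k → k + 2 ≤ n → k % 2 = k0 % 2 → (Q k ↔ Q (k + 2))) (k : ℤ) (a : 0 ≤ k)
    (b : k ≤ n) (e : k % 2 = k0 % 2) : Q k := by
  have c := chain_Un Q 2 n (k0 % 2) fun i hi => h _ (by omega) hi (by omega)
  have c0 := c (k0 / 2).toNat (by omega)
  have c1 := c (k / 2).toNat (by omega)
  rw [show k0 % 2 + ((2 : ℕ) : ℤ) * (k0 / 2).toNat = k0 by omega] at c0
  rw [show k0 % 2 + ((2 : ℕ) : ℤ) * (k / 2).toNat = k by omega] at c1
  exact c1.1 (c0.2 hq)

section
variable {B : Type} {D : AD B}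

theorem dl_par_Un {γ : Gm B} (h : D.Val γ) (k : ℤ) :
    D.dl γ k % 2 = 0 ↔ D.n γ % 2 = 0 ∧ k % 2 = 0 := by
  have h3 := h.ar
  unfold AD.dl
  split_ifs <;> omega

theorem dl_sum_Un {γ : Gm B} (h : D.Val γ) (k k' : ℤ) :
    D.dl γ k + D.dl (D.nx γ k) k' = if D.n γ % 2 = 1 then 2 * (k + k') - 2 * D.n γ
      else if (k + k') % 2 = 0 then k + k' - D.n γ
      else k + k' - D.U γ.1 γ.2.1 + 1 - if γ.2.2 then 0 else D.n γ := by
  have h3 := h.ar
  unfold AD.dl
  rw [D.n_nx]
  obtain ⟨x, y, z⟩ := γ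
  by_cases c : D.n (x, y, z) % 2 = 0 ∧ k % 2 = 0
  · rw [show D.nx (x, y, z) k = (x, y, !z) from if_pos c]
    cases z <;> simp only [Bool.not_true, Bool.not_false, Bool.false_eq_true, if_true, if_false]
      at h3 ⊢ <;> split_ifs <;> omega
  · rw [show D.nx (x, y, z) k = (y, x, z) from if_neg c]
    cases z <;> simp only [Bool.false_eq_true, if_true, if_false] at h3 ⊢ <;> split_ifs <;> omega

theorem alt_nx_Un {H : Type} [Group H] (a : B → H) {γ : Gm B} (h : D.Val γ) (k k' : ℤ) :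
    alt (a γ.1) (a γ.2.1) (D.dl γ k) * alt (a (D.nx γ k).1) (a (D.nx γ k).2.1) (D.dl (D.nx γ k) k')
      = alt (a γ.1) (a γ.2.1) (D.dl γ k + D.dl (D.nx γ k) k') := by
  rw [alt_add_Un]
  generalize D.dl (D.nx γ k) k' = m
  by_cases c : D.n γ % 2 = 0 ∧ k % 2 = 0
  · rw [if_pos ((dl_par_Un h k).2 c), show D.nx γ k = (γ.1, γ.2.1, !γ.2.2) from if_pos c]
  · rw [if_neg (mt (dl_par_Un h k).1 c), show D.nx γ k = op γ from if_neg c]
    rfl

/-- The combinatorial part: a property of the letters with the three out of four rule. -/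
theorem comb_Un (P : Gm B → ℤ → Prop)
    (t1 : ∀ γ k k' j j', D.In γ k → D.In γ k' → D.In γ j → D.In γ j' → k + k' = j + j' → P γ j →
      P (D.nx γ j) j' → (P γ k ↔ P (D.nx γ k) k'))
    (sy : ∀ γ k, D.In γ k → P γ k → P (D.nx γ k) (D.n γ - k))
    (up : ∀ x y, D.Val (x, y, false) → P (x, y, false) (D.U x y))
    (tp : ∀ x y, D.Val (x, y, false) → D.n (x, y, false) % 2 = 0 →
      P (x, y, false) (D.n (x, y, false))) (γ : Gm B) (k : ℤ) (h : D.In γ k) : P γ k := by
  have no : ∀ (γ : Gm B) k, D.n γ % 2 = 1 ∨ k % 2 = 1 → D.nx γ k = op γ := fun γ k c =>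
    if_neg (by omega)
  have ne : ∀ (γ : Gm B) k, D.n γ % 2 = 0 → k % 2 = 0 → D.nx γ k = (γ.1, γ.2.1, !γ.2.2) :=
    fun γ k c c' => if_pos ⟨c, c'⟩
  have dn : ∀ x y, D.Val (x, y, false) → P (y, x, false) (D.n (x, y, false) - D.U x y) :=
    fun x y v => by
      have a := v.ar
      have b := v.1
      dsimp only at a
      have := sy _ _ ⟨v, by omega, by omega⟩ (up x y v)
      rwa [no _ _ (by omega)] at this
  have st : ∀ γ k j s, D.In γ k → D.In γ (k + s) → D.In γ j → D.In γ (j + s) →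
      D.nx γ (k + s) = D.nx γ k → P (D.nx γ k) j → P (D.nx γ k) (j + s) →
      (P γ k ↔ P γ (k + s)) := fun γ k j s a b c d e p q =>
    ⟨fun r => (t1 γ (k + s) j k (j + s) b c a d (by omega) r q).2 (e ▸ p),
      fun r => (t1 γ k (j + s) (k + s) j a d b c (by omega) r (e ▸ p)).2 q⟩
  rcases Int.emod_two_eq_zero_or_one (D.n γ) with c | c
  swap
  · obtain ⟨x, y, z⟩ := γ
    obtain rfl : z = false := by
      cases z
      · rfl
      · have := h.1.2 rfl
        omega
    have v := h.1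
    have a := v.ar
    have b := v.1
    dsimp only at a
    refine one_Un (P (x, y, false)) _ _ (up x y v) (by omega) (by omega) (fun i i0 i1 => ?_) k
      h.2.1 h.2.2
    refine st _ i (D.n (x, y, false) - D.U x y) 1 ⟨v, i0, by omega⟩ ⟨v, by omega, i1⟩
      ⟨v, by omega, by omega⟩ ⟨v, by omega, by omega⟩ ?_ ?_ ?_
    · rw [no _ _ (Or.inl c), no _ _ (Or.inl c)]
    · rw [no _ _ (Or.inl c)]
      exact dn x y v
    · rw [no _ _ (Or.inl c), show D.n (x, y, false) - D.U x y + 1 = D.U y x by omega]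
      exact up y x v.op
  have o1 : ∀ x y k, D.In (x, y, false) k → D.n (x, y, false) % 2 = 0 → k % 2 = 1 →
      P (x, y, false) k := fun x y k h c e => by
    have v := h.1
    have a := v.ar
    have b := v.1
    dsimp only at a
    refine two_Un (P (x, y, false)) _ _ (up x y v) (by omega) (by omega) (fun i i0 i1 i2 => ?_) k
      h.2.1 h.2.2 (by omega)
    refine st _ i (D.n (x, y, false) - D.U x y) 2 ⟨v, i0, by omega⟩ ⟨v, by omega, i1⟩
      ⟨v, by omega, by omega⟩ ⟨v, by omega, by omega⟩ ?_ ?_ ?_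
    · rw [no _ _ (by omega), no _ _ (by omega)]
    · rw [no _ _ (by omega)]
      exact dn x y v
    · rw [no _ _ (by omega), show D.n (x, y, false) - D.U x y + 2 = D.U y x by omega]
      exact up y x v.op
  have o2 : ∀ γ k, D.In γ k → D.n γ % 2 = 0 → k % 2 = 1 → P γ k := by
    rintro ⟨x, y, z⟩ k h c e
    cases z
    · exact o1 x y k h c e
    have v : D.Val (x, y, false) := ⟨h.1.1, fun _ => c⟩
    have b := v.1
    have h' : D.In (x, y, false) k := ⟨v, h.2⟩
    have hn : D.In (x, y, false) (D.n (x, y, false)) := ⟨v, by omega, le_rfl⟩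
    have q : P (D.nx (x, y, false) k) (D.n (x, y, false)) := by
      rw [no _ _ (Or.inr e), ← D.n_op]
      exact tp y x v.op ((congrArg (· % 2) (D.n_op (x, y, false))).trans c)
    have := (t1 _ _ k k _ hn h' h' hn (add_comm _ _) (o1 x y k h' c e) q).1 (tp x y v c)
    rwa [ne (x, y, false) (D.n (x, y, false)) c c] at this
  rcases Int.emod_two_eq_zero_or_one k with e | e
  swap
  · exact o2 γ k h c e
  have v := h.1
  have b := v.1
  obtain ⟨k0, q, q0, q1, q2⟩ : ∃ k0, P γ k0 ∧ 0 ≤ k0 ∧ k0 ≤ D.n γ ∧ k0 % 2 = 0 := by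
    obtain ⟨x, y, z⟩ := γ
    have v' : D.Val (x, y, false) := ⟨v.1, fun _ => c⟩
    cases z
    · exact ⟨_, tp x y v c, by omega, le_rfl, c⟩
    · have := sy _ _ ⟨v', le_trans (by norm_num) v'.1, le_rfl⟩ (tp x y v' c)
      rw [ne (x, y, false) (D.n (x, y, false)) c c, sub_self] at this
      exact ⟨0, this, le_rfl, by omega, rfl⟩
  refine two_Un (P γ) _ _ q q0 q1 (fun i i0 i1 i2 => ?_) k h.2.1 h.2.2 (by omega)
  have i3 : D.In γ 1 := ⟨v, by omega, by omega⟩
  have i4 : D.In γ (1 + 2) := ⟨v, by omega, by omega⟩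
  refine st γ i 1 2 ⟨v, i0, by omega⟩ ⟨v, by omega, i1⟩ i3 i4 ?_
    (o2 _ _ (i3.nx i) (by rw [D.n_nx]; exact c) rfl) (o2 _ _ (i4.nx i) (by rw [D.n_nx]; exact c) rfl)
  rw [ne _ _ c (by omega), ne _ _ c (by omega)]

end

theorem un_pf : Un_st := by
  intro B D H _ A hb hs
  let T : Option (Sym2 B) → H := fun o => o.elim 1 fun p => A (.ext p false true)
  let S : Gm B → H := fun γ => T (if γ.2.2 then some s(γ.1, γ.2.1) else none)
  let W : Gm B → ℤ → H := fun γ k => S γ * A (D.lab γ k) * (S (D.nx γ k))⁻¹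
  let V : Gm B → ℤ → H := fun γ k => alt (A (.gen γ.1 true)) (A (.gen γ.2.1 true)) (D.dl γ k)
  have a0 : ∀ γ k, D.In γ k → A (D.lab γ k) * A (D.lab (D.nx γ k) (D.n γ - k)) = 1 :=
    fun γ k h => by rw [← AD.bar_lab h, hb, mul_inv_cancel]
  have w : ∀ γ k k', W γ k * W (D.nx γ k) k' =
      S γ * (A (D.lab γ k) * A (D.lab (D.nx γ k) k')) * (S (D.nx (D.nx γ k) k'))⁻¹ :=
    fun γ k k' => by simp only [W, mul_assoc, inv_mul_cancel_left]
  have w1 : ∀ γ k k' j j', D.In γ k → D.In γ k' → D.In γ j → D.In γ j' → k + k' = j + j' →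
      W γ k * W (D.nx γ k) k' = W γ j * W (D.nx γ j) j' := fun γ k k' j j' a b c d e => by
    rw [w, w, D.nx_nx γ e]
    congr 2
    by_cases f : k + k' = D.n γ
    · rw [show k' = D.n γ - k by omega, show j' = D.n γ - j by omega, a0 _ _ a, a0 _ _ c]
    · exact hs _ _ _ _ ⟨γ, k, k', j, j', a, b, c, d, e, f, rfl, rfl, rfl, rfl⟩
  have v : ∀ γ k k', D.Val γ → V γ k * V (D.nx γ k) k' =
      alt (A (.gen γ.1 true)) (A (.gen γ.2.1 true)) (D.dl γ k + D.dl (D.nx γ k) k') :=
    fun γ k k' h => alt_nx_Un (fun x => A (.gen x true)) h k k'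
  have z0 : ∀ g h : H, alt g h 0 = 1 := fun g h => by simp [alt]
  have z1 : ∀ g h : H, alt g h 1 = g := fun g h => by simp [alt]
  have key := comb_Un (D := D) (fun γ k => W γ k = V γ k) (fun γ k k' j j' a b c d e p q => by
      have e1 := w1 γ k k' j j' a b c d e
      have e2 : V γ k * V (D.nx γ k) k' = V γ j * V (D.nx γ j) j' := by
        rw [v _ _ _ a.1, v _ _ _ a.1, dl_sum_Un a.1, dl_sum_Un a.1, e]
      rw [p, q, ← e2] at e1
      exact ⟨fun r => mul_left_cancel (r ▸ e1), fun r => mul_right_cancel (r ▸ e1)⟩)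
    (fun γ k a p => by
      have e1 : W γ k * W (D.nx γ k) (D.n γ - k) = 1 := by
        rw [w, a0 _ _ a, D.nx_back, mul_one, mul_inv_cancel]
      have e2 : V γ k * V (D.nx γ k) (D.n γ - k) = 1 := by
        rw [v _ _ _ a.1, dl_sum_Un a.1, add_sub_cancel, ← z0 (A (.gen γ.1 true)) (A (.gen γ.2.1 true))]
        congr 1
        split_ifs <;> omega
      rw [p, ← e2] at e1
      exact mul_left_cancel e1)
    (fun x y h => by
      have a := h.ar
      dsimp only at a
      have e : D.dl (x, y, false) (D.U x y) = 1 := by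
        unfold AD.dl
        dsimp only
        split_ifs <;> omega
      have e' : D.nx (x, y, false) (D.U x y) = (y, x, false) := if_neg (by omega)
      simp only [W, V, e, e', AD.lab_up h, z1, S, T]
      simp)
    (fun x y h c => by
      have b := h.1
      have e : D.dl (x, y, false) (D.n (x, y, false)) = 0 := by
        unfold AD.dl
        rw [if_neg (by omega), if_neg (by omega), if_neg (by simp), sub_self]
      have e' : D.nx (x, y, false) (D.n (x, y, false)) = (x, y, true) := if_pos ⟨c, c⟩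
      have e'' : D.lab (x, y, false) (D.n (x, y, false)) = .ext s(x, y) false true := by
        rw [AD.lab, if_neg (by omega), if_pos rfl]
      simp only [W, V, e, e', e'', z0, S, T]
      simp)
  refine ⟨T, rfl, fun γ k h => ?_⟩
  rw [AD.bar_lab h, AD.src_lab, AD.src_lab]
  exact mul_inv_eq_iff_eq_mul.1 (key γ k h)

end Pool.Agent.MP_f411ce_al.LT
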